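import Pool.Agent.Lib.MP_67d80e_pr_all.UBGlue
import Pool.Agent.Lib.MP_67d80e_pr_ub.Mono

/-!
From a functional to a numerical upper bound.
-/

set_option autoImplicit false

open scoped BigOperators ENNReal
open Pool.Agent.Lib.MP_67d80e_pr Pool.Agent.Lib.MP_67d80e_pr_all

namespace Pool.Agent.Lib.MP_67d80e_pr_opt

/-- a functional gives an upper bound, with a rational lower bound of the logarithm -/
theorem hasUB_psi {n a b : ℕ} {q lam U : ℝ} (h : ∃ Ψ, HasPsi n q lam Ψ) (hq : 1 < q)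
    (hlam : 0 ≤ lam) (ha : 0 < a) (hb : 0 < b) (hlog : (2.7182818286 : ℝ) ^ a ≤ q ^ b)
    (hU : lam * b / a ≤ U) : HasUB n U := by
  obtain ⟨Ψ, hΨ⟩ := h
  refine (hasUB_of_mean n _ (mean_of_psi n q lam Ψ hq hlam hΨ)).mono ?_
  have h2 := Pool.Agent.Lib.MP_67d80e_pr_ub.log_ge_of hb hlog
  have ha' : (0 : ℝ) < a := by exact_mod_cast ha
  have hb' : (0 : ℝ) < b := by exact_mod_cast hb
  have h3 : (0 : ℝ) < (a : ℝ) / b := div_pos ha' hb'
  calc lam / Real.log q ≤ lam / ((a : ℝ) / b) := div_le_div_of_nonneg_left hlam h3 h2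
    _ = lam * b / a := by field_simp
    _ ≤ U := hU

end Pool.Agent.Lib.MP_67d80e_pr_opt
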