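import Pool.Agent.Lib.MP_67d80e_pr_lab.Sym

/-!
Option labels: the weight of a site is split into the parts of the options of its next ring (its own
new level, or the creation of one of its neighbours). A certificate on labels of the options gives a
functional of droplets which grows at most at a given exponential rate, in every dimension.
-/

set_option autoImplicit false

open scoped BigOperators ENNReal
open Filter MeasureTheory
open Pool.Agent.Lib.MP_67d80e_pr Pool.Agent.Lib.MP_67d80e_pr_all Pool.Agent.Lib.MP_67d80e_pr_lab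

namespace Pool.Agent.Lib.MP_67d80e_pr_opt

variable {n : ℕ} {ι : Type}

/-- the options: the new level of the centre (`none`), or the created neighbour -/
abbrev Op (n : ℕ) : Type := Option (Site (n + 1))

/-- all options -/
def ops (n : ℕ) : Finset (Op n) := Finset.insertNone (nbrs (0 : Site (n + 1)))

/-- the option cannot be realised any more -/
def flg : Op n → Dr (n + 1) → Site (n + 1) → Prop
  | none, _, _ => False
  | some f, a, z => a z ≤ a (z + f)

/-- the weight of an option -/
noncomputable def wo (q : ℝ) : Op n → ℝ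
  | none => q
  | some f => q ^ (f 0)

/-- the data of a functional of option labels -/
structure OCert (n : ℕ) (ι : Type) where
  /-- the lower bounds of a label -/
  K : ι → Set (Site (n + 1) × ℤ)
  /-- the weight of a label -/
  φ : ι → ℕ
  /-- the option of a label -/
  ty : ι → Op n
  /-- the labels after the ring of the centre, for each next option, `none` if it is impossible -/
  mT : ι → Op n → Option ι
  /-- the sites whose rings are followed -/
  E : ι → Finset (Site (n + 1))
  /-- the label after a ring at a followed site, `none` if the option becomes impossible -/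
  tgt : ι → Site (n + 1) → Option ι

/-- the weight of an optional label -/
def OCert.φo (c : OCert n ι) : Option ι → ℝ
  | none => 0
  | some j => c.φ j

/-- the conditions on a certificate -/
structure OCert.Ok (c : OCert n ι) (q lam : ℝ) (R : ℕ) : Prop where
  one_le : 1 ≤ q
  lam_nonneg : 0 ≤ lam
  R_pos : 1 ≤ R
  root : ∀ t ∈ ops n, ∃ i, c.ty i = t ∧ c.K i = ∅
  pos : ∀ i, c.ty i = none → 1 ≤ c.φ i
  own_ok : ∀ i, c.ty i = none → ∀ t ∈ ops n, ∀ j, c.mT i t = some j → c.ty j = t ∧
    ∀ a z, a z ≠ ⊥ → Val a z (c.K i) → Val (upd {z} a) z (c.K j)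
  own_flg : ∀ i, c.ty i = none → ∀ t ∈ ops n, c.mT i t = none →
    ∀ a z, a z ≠ ⊥ → Val a z (c.K i) → flg t (upd {z} a) z
  child_ok : ∀ i, ∀ f ∈ nbrs (0 : Site (n + 1)), c.ty i = some f → ∀ t ∈ ops n, ∀ j,
    c.mT i t = some j → c.ty j = t ∧ ∀ a z, a z ≠ ⊥ → Val a z (c.K i) → a (z + f) < a z →
      Val (upd {z} a) (z + f) (c.K j)
  child_flg : ∀ i, ∀ f ∈ nbrs (0 : Site (n + 1)), c.ty i = some f → ∀ t ∈ ops n,
    c.mT i t = none → ∀ a z, a z ≠ ⊥ → Val a z (c.K i) → a (z + f) < a z →
      flg t (upd {z} a) (z + f)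
  E_ne : ∀ i, (0 : Site (n + 1)) ∉ c.E i
  E_le : ∀ i, ∀ y ∈ c.E i, ∀ k, |y k| ≤ R
  tgt_ok : ∀ i, ∀ y ∈ c.E i, ∀ j, c.tgt i y = some j → c.ty j = c.ty i ∧
    ∀ a z, a z ≠ ⊥ → Val a z (c.K i) → (z + y ∈ nbrs z → a (z + y) ≤ a z) →
      Val (upd {z + y} a) z (c.K j)
  kill_ok : ∀ i, ∀ y ∈ c.E i, c.tgt i y = none → ∀ a z, a z ≠ ⊥ → Val a z (c.K i) →
    (z + y ∈ nbrs z → a (z + y) ≤ a z) → flg (c.ty i) (upd {z + y} a) z
  ineq : ∀ i, c.ty i ∈ ops n → wo q (c.ty i) * ∑ t ∈ ops n, c.φo (c.mT i t) +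
    ∑ y ∈ c.E i, c.φo (c.tgt i y) ≤ (lam + 1 + (c.E i).card) * c.φ i

lemma OCert.φo_nonneg (c : OCert n ι) (o : Option ι) : 0 ≤ c.φo o := by
  cases o with
  | none => exact le_rfl
  | some j => exact Nat.cast_nonneg _

/-! ### the functional -/

/-- the smallest weight of a valid label of the option -/
noncomputable def mn0 (c : OCert n ι) (t : Op n) (a : Dr (n + 1)) (z : Site (n + 1)) : ℕ :=
  sInf {f | ∃ i, c.ty i = t ∧ c.φ i = f ∧ Val a z (c.K i)}

open Classical in
/-- the weight of the option at a site -/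
noncomputable def mn (c : OCert n ι) (t : Op n) (a : Dr (n + 1)) (z : Site (n + 1)) : ℕ :=
  if flg t a z then 0 else mn0 c t a z

/-- the label used at a site -/
noncomputable def lb [Nonempty ι] (c : OCert n ι) (t : Op n) (a : Dr (n + 1))
    (z : Site (n + 1)) : ι :=
  Classical.epsilon fun i => c.ty i = t ∧ c.φ i = mn0 c t a z ∧ Val a z (c.K i)

lemma mn_le {c : OCert n ι} {a : Dr (n + 1)} {z : Site (n + 1)} {i : ι}
    (h : Val a z (c.K i)) : mn c (c.ty i) a z ≤ c.φ i := by
  unfold mn
  split_ifs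
  · exact Nat.zero_le _
  · exact Nat.sInf_le ⟨i, rfl, rfl, h⟩

lemma mn_flg {c : OCert n ι} {t : Op n} {a : Dr (n + 1)} {z : Site (n + 1)} (h : flg t a z) :
    mn c t a z = 0 := if_pos h

/-- the weight of a site -/
noncomputable def wt (c : OCert n ι) (q : ℝ) (a : Dr (n + 1)) (z : Site (n + 1)) : ℝ :=
  wq q a z * ∑ t ∈ ops n, (mn c t a z : ℝ)

/-- the functional -/
noncomputable def Psi (c : OCert n ι) (q : ℝ) (a : Dr (n + 1)) : ℝ≥0∞ :=
  ∑' z, ENNReal.ofReal (wt c q a z)

lemma wt_bot {c : OCert n ι} {q : ℝ} {a : Dr (n + 1)} {z : Site (n + 1)} (h : a z = ⊥) :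
    wt c q a z = 0 := by
  unfold wt; rw [wq_bot h, zero_mul]

lemma none_mem_ops : (none : Op n) ∈ ops n := Finset.none_mem_insertNone

lemma some_mem_ops {f : Site (n + 1)} : some f ∈ ops n ↔ f ∈ nbrs (0 : Site (n + 1)) :=
  Finset.some_mem_insertNone

lemma sum_ops (F : Op n → ℝ) : ∑ t ∈ ops n, F t =
    F none + ∑ f ∈ nbrs (0 : Site (n + 1)), F (some f) := by
  unfold ops
  rw [Finset.sum_insertNone]

lemma flg_mono {t : Op n} {a b : Dr (n + 1)} {z : Site (n + 1)} (h : flg t a z)
    (h1 : ∀ x, a x ≤ b x) (h2 : b z = a z) : flg t b z := by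
  cases t with
  | none => exact h
  | some f =>
    change b z ≤ b (z + f)
    rw [h2]
    exact le_trans h (h1 _)

section
variable [Nonempty ι] {c : OCert n ι} {q lam : ℝ} {R : ℕ}

lemma lb_spec (h : c.Ok q lam R) {t : Op n} (ht : t ∈ ops n) (a : Dr (n + 1))
    (z : Site (n + 1)) :
    c.ty (lb c t a z) = t ∧ c.φ (lb c t a z) = mn0 c t a z ∧ Val a z (c.K (lb c t a z)) := by
  have h1 : ∃ i, c.ty i = t ∧ c.φ i = mn0 c t a z ∧ Val a z (c.K i) := by
    have h2 : ({f | ∃ i, c.ty i = t ∧ c.φ i = f ∧ Val a z (c.K i)} : Set ℕ).Nonempty := by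
      obtain ⟨i, hi1, hi2⟩ := h.root t ht
      refine ⟨c.φ i, i, hi1, rfl, ?_⟩
      rw [hi2]
      intro p hp
      exact absurd hp (Set.notMem_empty p)
    exact Nat.sInf_mem h2
  exact Classical.epsilon_spec h1

lemma one_le_mn (h : c.Ok q lam R) (a : Dr (n + 1)) (z : Site (n + 1)) :
    1 ≤ mn c none a z := by
  have h1 := lb_spec h none_mem_ops a z
  have h2 : mn c none a z = mn0 c none a z := if_neg (fun h => h)
  rw [h2, ← h1.2.1]
  exact h.pos _ h1.1

open Classical in
/-- the value of a ring at a followed site -/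
noncomputable def vv (c : OCert n ι) (q : ℝ) (i : ι) (y : Site (n + 1)) : ℝ :=
  if y = 0 then (if c.ty i = none then q * ∑ t ∈ ops n, c.φo (c.mT i t) else 0)
  else c.φo (c.tgt i y)

omit [Nonempty ι] in
lemma sum_φo_nonneg (i : ι) : 0 ≤ ∑ t ∈ ops n, c.φo (c.mT i t) :=
  Finset.sum_nonneg fun _ _ => c.φo_nonneg _

omit [Nonempty ι] in
lemma vv_nonneg (hq : 1 ≤ q) (i : ι) (y : Site (n + 1)) : 0 ≤ vv c q i y := by
  unfold vv
  split_ifs
  · exact mul_nonneg (by linarith) (sum_φo_nonneg i)
  · exact le_rfl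
  · exact c.φo_nonneg _

open Classical in
/-- the contribution of an option of a site to its own weight -/
noncomputable def owt (c : OCert n ι) (q : ℝ) (S : Set (Site (n + 1))) (a : Dr (n + 1))
    (z : Site (n + 1)) (t : Op n) : ℝ :=
  if flg t a z then 0 else
    (if ∃ y ∈ insert 0 (c.E (lb c t a z)), z + y ∈ S then
      ∑ y ∈ insert 0 (c.E (lb c t a z)), (if z + y ∈ S then vv c q (lb c t a z) y else 0)
      else (c.φ (lb c t a z) : ℝ))

/-- the contribution of a site to its own weight -/
noncomputable def ow (c : OCert n ι) (q : ℝ) (S : Set (Site (n + 1))) (a : Dr (n + 1))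
    (z : Site (n + 1)) : ℝ :=
  wq q a z * ∑ t ∈ ops n, owt c q S a z t

open Classical in
/-- the weight of the neighbour `x + f` created by a ring at `x` -/
noncomputable def ch (c : OCert n ι) (q : ℝ) (S : Set (Site (n + 1))) (a : Dr (n + 1))
    (f x : Site (n + 1)) : ℝ :=
  if x ∈ S then wq q a x * (if flg (some f) a x then 0 else
    q ^ (f 0) * ∑ t ∈ ops n, c.φo (c.mT (lb c (some f) a x) t)) else 0

lemma owt_nonneg (hq : 1 ≤ q) (S : Set (Site (n + 1))) (a : Dr (n + 1)) (z : Site (n + 1))
    (t : Op n) : 0 ≤ owt c q S a z t := by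
  unfold owt
  split_ifs
  · exact le_rfl
  · refine Finset.sum_nonneg fun y _ => ?_
    split_ifs
    · exact vv_nonneg hq _ _
    · exact le_rfl
  · positivity

lemma ow_nonneg (hq : 1 ≤ q) (S : Set (Site (n + 1))) (a : Dr (n + 1)) (z : Site (n + 1)) :
    0 ≤ ow c q S a z :=
  mul_nonneg (wq_nonneg hq a z) (Finset.sum_nonneg fun t _ => owt_nonneg hq S a z t)

lemma ch_nonneg (hq : 1 ≤ q) (S : Set (Site (n + 1))) (a : Dr (n + 1)) (f x : Site (n + 1)) :
    0 ≤ ch c q S a f x := by
  unfold ch
  have h0 : (0 : ℝ) < q := by linarith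
  split_ifs
  · rw [mul_zero]
  · exact mul_nonneg (wq_nonneg hq a x) (mul_nonneg (by positivity) (sum_φo_nonneg _))
  · exact le_rfl

lemma owt_ge_of_mem (hq : 1 ≤ q) {S : Set (Site (n + 1))} {a : Dr (n + 1)} {z y : Site (n + 1)}
    {t : Op n} (ht : ¬ flg t a z)
    (hy : y ∈ insert 0 (c.E (lb c t a z))) (hS : z + y ∈ S) :
    vv c q (lb c t a z) y ≤ owt c q S a z t := by
  classical
  unfold owt
  rw [if_neg ht, if_pos ⟨y, hy, hS⟩]
  refine le_trans (le_of_eq ?_) (Finset.single_le_sum (f := fun y =>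
    if z + y ∈ S then vv c q (lb c t a z) y else 0) (fun k _ => ?_) hy)
  · simp only [if_pos hS]
  · split_ifs
    · exact vv_nonneg hq _ _
    · exact le_rfl

lemma owt_eq_of_notMem {S : Set (Site (n + 1))} {a : Dr (n + 1)} {z : Site (n + 1)} {t : Op n}
    (ht : ¬ flg t a z) (hS : ∀ y ∈ insert 0 (c.E (lb c t a z)), z + y ∉ S) :
    owt c q S a z t = c.φ (lb c t a z) := by
  classical
  unfold owt
  rw [if_neg ht, if_neg]
  rintro ⟨y, hy, h⟩
  exact hS y hy h

/-- the termwise bound -/
theorem wt_upd_le (h : c.Ok q lam R) {S : Set (Site (n + 1))} (hS : Sep R S) (a : Dr (n + 1))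
    (z : Site (n + 1)) :
    wt c q (upd S a) z ≤ ow c q S a z + ∑ f ∈ nbrs (0 : Site (n + 1)), ch c q S a f (z - f) := by
  classical
  have hq := h.one_le
  have hq0 : (0 : ℝ) < q := by linarith
  have hR := h.R_pos
  have n1 := ow_nonneg (c := c) hq S a z
  have n2 : ∀ f ∈ nbrs (0 : Site (n + 1)), 0 ≤ ch c q S a f (z - f) := fun f _ =>
    ch_nonneg hq S a f (z - f)
  have n3 := Finset.sum_nonneg n2
  by_cases hbot : upd S a z = ⊥
  · rw [wt_bot hbot]
    linarith
  by_cases hz : z ∈ S
  · -- the centre rings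
    have hu : upd S a z = a z + 1 := upd_center hz fun y hy => hS.notMem_of_nbr hR hz hy
    have hne : a z ≠ ⊥ := by
      intro h0
      apply hbot
      rw [hu, h0]; rfl
    obtain ⟨m, hm⟩ := WithBot.ne_bot_iff_exists.1 hne
    have hm := hm.symm
    have hu' : upd S a z = ((m + 1 : ℤ) : WithBot ℤ) := by rw [hu, hm]; rfl
    obtain ⟨hty, hmn, hval⟩ := lb_spec h none_mem_ops a z
    set i := lb c none a z with hi
    have hu1 : upd {z} a z = a z + 1 := upd_center (Set.mem_singleton z) fun y hy hyz =>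
      self_notMem_nbrs z (by rw [Set.mem_singleton_iff] at hyz; rwa [hyz] at hy)
    have h1 : ∀ t ∈ ops n, (mn c t (upd S a) z : ℝ) ≤ c.φo (c.mT i t) := by
      intro t ht
      cases hc : c.mT i t with
      | none =>
        have h2 := h.own_flg i hty t ht hc a z hne hval
        have h3 : flg t (upd S a) z := flg_mono h2
          (fun x => upd_mono_set (Set.singleton_subset_iff.2 hz) a x) (by rw [hu, hu1])
        rw [mn_flg h3]
        simp [OCert.φo]
      | some j =>
        obtain ⟨h2, h3⟩ := h.own_ok i hty t ht j hc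
        have hv1 := h3 a z hne hval
        have hv : Val (upd S a) z (c.K j) :=
          hv1.mono (fun x => upd_mono_set (Set.singleton_subset_iff.2 hz) a x) (by rw [hu, hu1])
        have h4 := mn_le hv
        rw [h2] at h4
        change (mn c t (upd S a) z : ℝ) ≤ (c.φ j : ℝ)
        exact_mod_cast h4
    have h2 : wt c q (upd S a) z ≤ q ^ (m + 1 + z 0) * ∑ t ∈ ops n, c.φo (c.mT i t) := by
      unfold wt
      rw [wq_eq hu']
      exact mul_le_mul_of_nonneg_left (Finset.sum_le_sum h1) (by positivity)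
    have h3 : q ^ (m + 1 + z 0) = q ^ (m + z 0) * q := by
      rw [show m + 1 + z 0 = m + z 0 + 1 by ring, zpow_add_one₀ hq0.ne']
    have h4 : q ^ (m + z 0) * (q * ∑ t ∈ ops n, c.φo (c.mT i t)) ≤ ow c q S a z := by
      unfold ow
      rw [wq_eq hm]
      refine mul_le_mul_of_nonneg_left ?_ (by positivity)
      refine le_trans ?_ (Finset.single_le_sum (f := fun t => owt c q S a z t)
        (fun t _ => owt_nonneg hq S a z t) none_mem_ops)
      have h5 := owt_ge_of_mem (S := S) (z := z) (y := 0) (t := none) hq (c := c) (a := a)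
        (fun h => h) (Finset.mem_insert_self 0 _) (by rw [add_zero]; exact hz)
      refine le_trans (le_of_eq ?_) h5
      unfold vv
      rw [if_pos rfl, ← hi, if_pos hty]
    rw [h3] at h2
    have h6 : q ^ (m + z 0) * q * ∑ t ∈ ops n, c.φo (c.mT i t) =
        q ^ (m + z 0) * (q * ∑ t ∈ ops n, c.φo (c.mT i t)) := by ring
    linarith
  by_cases hex : ∃ x ∈ nbrs z, x ∈ S ∧ a z < a x
  · -- the neighbour `x` creates `z`
    obtain ⟨x, hx, hxS, hlt⟩ := hex
    have huniq : ∀ y ∈ nbrs z, y ∈ S → y = x := by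
      intro y hy hyS
      refine hS y hyS x hxS fun k => ?_
      have hy' : y - z ∈ nbrs (0 : Site (n + 1)) := by
        rw [← add_mem_nbrs_iff (x := z), add_sub_cancel]; exact hy
      have hx' : x - z ∈ nbrs (0 : Site (n + 1)) := by
        rw [← add_mem_nbrs_iff (x := z), add_sub_cancel]; exact hx
      have h3 := abs_nbrs_le hy' k
      have h4 := abs_nbrs_le hx' k
      rw [Pi.sub_apply] at h3 h4
      have h5 : (1 : ℤ) ≤ R := by exact_mod_cast hR
      rw [abs_le] at h3 h4 ⊢
      constructor <;> linarith [h3.1, h3.2, h4.1, h4.2]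
    have hu : upd S a z = a x := by
      rw [upd_nbr_eq hz hx hxS huniq, max_eq_right hlt.le]
    have hne : a x ≠ ⊥ := by rw [← hu]; exact hbot
    obtain ⟨m, hm⟩ := WithBot.ne_bot_iff_exists.1 hne
    have hm := hm.symm
    set f : Site (n + 1) := z - x with hf
    have hzf : x + f = z := by rw [hf]; abel
    have hfn : f ∈ nbrs (0 : Site (n + 1)) := by
      rw [← add_mem_nbrs_iff (x := x), hzf]
      exact nbrs_symm.1 hx
    have hxf : z - f = x := by rw [hf]; abel
    obtain ⟨hty, hmn, hval⟩ := lb_spec h (some_mem_ops.2 hfn) a x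
    set i := lb c (some f) a x with hi
    have hnf : ¬ flg (some f) a x := by
      change ¬ (a x ≤ a (x + f))
      rw [hzf]
      exact not_le.2 hlt
    have hu1 : upd {x} a z = a x := by
      rw [upd_nbr_eq (fun hzx => ?_) hx (Set.mem_singleton x) (fun y _ hy => hy),
        max_eq_right hlt.le]
      rw [Set.mem_singleton_iff] at hzx
      rw [hzx] at hx
      exact self_notMem_nbrs x hx
    have h1 : ∀ t ∈ ops n, (mn c t (upd S a) z : ℝ) ≤ c.φo (c.mT i t) := by
      intro t ht
      cases hc : c.mT i t with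
      | none =>
        have h2 := h.child_flg i f hfn hty t ht hc a x hne hval (by rw [hzf]; exact hlt)
        rw [hzf] at h2
        have h3 : flg t (upd S a) z := flg_mono h2
          (fun x' => upd_mono_set (Set.singleton_subset_iff.2 hxS) a x') (by rw [hu, hu1])
        rw [mn_flg h3]
        simp [OCert.φo]
      | some j =>
        obtain ⟨h2, h3⟩ := h.child_ok i f hfn hty t ht j hc
        have hv1 := h3 a x hne hval (by rw [hzf]; exact hlt)
        rw [hzf] at hv1
        have hv : Val (upd S a) z (c.K j) :=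
          hv1.mono (fun x' => upd_mono_set (Set.singleton_subset_iff.2 hxS) a x')
            (by rw [hu, hu1])
        have h4 := mn_le hv
        rw [h2] at h4
        change (mn c t (upd S a) z : ℝ) ≤ (c.φ j : ℝ)
        exact_mod_cast h4
    have h2 : wt c q (upd S a) z ≤ q ^ (m + z 0) * ∑ t ∈ ops n, c.φo (c.mT i t) := by
      unfold wt
      rw [wq_eq (hu.trans hm)]
      exact mul_le_mul_of_nonneg_left (Finset.sum_le_sum h1) (by positivity)
    have h3 : ch c q S a f (z - f) = q ^ (m + z 0) * ∑ t ∈ ops n, c.φo (c.mT i t) := by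
      rw [hxf]
      unfold ch
      rw [if_pos hxS, if_neg hnf, wq_eq hm, ← hi, ← mul_assoc, ← zpow_add₀ hq0.ne']
      congr 2
      rw [hf, Pi.sub_apply]
      ring
    have h4 := Finset.single_le_sum n2 hfn
    rw [h3] at h4
    linarith
  · -- the level does not change
    have hle : ∀ y ∈ nbrs z, y ∈ S → a y ≤ a z := by
      intro y hy hyS
      by_contra hcon
      exact hex ⟨y, hy, hyS, not_le.1 hcon⟩
    have hu : upd S a z = a z := upd_same hz hle
    have hne : a z ≠ ⊥ := by rw [← hu]; exact hbot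
    obtain ⟨m, hm⟩ := WithBot.ne_bot_iff_exists.1 hne
    have hm := hm.symm
    have h1 : ∀ t ∈ ops n, (mn c t (upd S a) z : ℝ) ≤ owt c q S a z t := by
      intro t ht
      by_cases hfl : flg t a z
      · rw [mn_flg (flg_mono hfl (le_upd S a) hu)]
        simpa using owt_nonneg hq S a z t
      obtain ⟨hty, hmn, hval⟩ := lb_spec h ht a z
      by_cases hw : ∃ y ∈ c.E (lb c t a z), z + y ∈ S
      · obtain ⟨y, hy, hyS⟩ := hw
        have hy0 : y ≠ 0 := fun h0 => h.E_ne _ (h0 ▸ hy)
        have h2 := owt_ge_of_mem (S := S) hq hfl (Finset.mem_insert_of_mem hy) hyS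
        have h3 : vv c q (lb c t a z) y = c.φo (c.tgt (lb c t a z) y) := by
          unfold vv; rw [if_neg hy0]
        rw [h3] at h2
        refine le_trans ?_ h2
        have hu1 : upd {z + y} a z = a z := by
          refine upd_same (fun h4 => hz ?_) (fun y' h4 h5 => ?_)
          · rw [Set.mem_singleton_iff] at h4; rw [h4]; exact hyS
          · rw [Set.mem_singleton_iff] at h5
            rw [h5] at h4 ⊢
            exact hle _ h4 hyS
        cases hc : c.tgt (lb c t a z) y with
        | none =>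
          have h4 := h.kill_ok _ y hy hc a z hne hval (fun h4 => hle _ h4 hyS)
          rw [hty] at h4
          have h5 : flg t (upd S a) z := flg_mono h4
            (fun x' => upd_mono_set (Set.singleton_subset_iff.2 hyS) a x') (by rw [hu, hu1])
          rw [mn_flg h5]
          simp [OCert.φo]
        | some j =>
          obtain ⟨h4, h5⟩ := h.tgt_ok _ y hy j hc
          have hv1 := h5 a z hne hval (fun h4 => hle _ h4 hyS)
          have hv : Val (upd S a) z (c.K j) :=
            hv1.mono (fun x' => upd_mono_set (Set.singleton_subset_iff.2 hyS) a x')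
              (by rw [hu, hu1])
          have h6 := mn_le hv
          rw [h4, hty] at h6
          change (mn c t (upd S a) z : ℝ) ≤ (c.φ j : ℝ)
          exact_mod_cast h6
      · push Not at hw
        have h2 : owt c q S a z t = c.φ (lb c t a z) := by
          refine owt_eq_of_notMem hfl fun y hy => ?_
          rcases Finset.mem_insert.1 hy with h4 | h4
          · rw [h4, add_zero]; exact hz
          · exact hw y h4
        rw [h2]
        have h3 := mn_le (c := c) (hval.mono (le_upd S a) hu)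
        rw [hty] at h3
        exact_mod_cast h3
    have h2 : wt c q (upd S a) z ≤ ow c q S a z := by
      unfold wt ow
      rw [wq_eq (hu.trans hm), wq_eq hm]
      exact mul_le_mul_of_nonneg_left (Finset.sum_le_sum h1) (by positivity)
    linarith

/-! ### the sum over the classes -/

lemma sum_owt (h : c.Ok q lam R) {N : ℕ} [NeZero N] (hN : 2 * R < N) (a : Dr (n + 1))
    (z : Site (n + 1)) {t : Op n} (ht : ¬ flg t a z) :
    ∑ α : Fin (n + 1) → ZMod N, owt c q (TS N α) a z t =
      ∑ y ∈ insert 0 (c.E (lb c t a z)), vv c q (lb c t a z) y +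
        ((nT (n + 1) N : ℝ) - (insert 0 (c.E (lb c t a z))).card) * c.φ (lb c t a z) := by
  classical
  unfold owt
  simp only [if_neg ht]
  have hE : ∀ y ∈ insert 0 (c.E (lb c t a z)), ∀ k, |y k| ≤ (R : ℤ) := by
    intro y hy k
    rcases Finset.mem_insert.1 hy with h1 | h1
    · rw [h1]; simp
    · exact h.E_le _ y h1 k
  have h1 := sum_classes (insert 0 (c.E (lb c t a z))) (fun y => cls N (z + y))
    (cls_add_injOn hN z hE) (vv c q (lb c t a z)) (c.φ (lb c t a z))
  have h2 : (Fintype.card (Fin (n + 1) → ZMod N) : ℝ) = nT (n + 1) N := by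
    unfold nT
    rw [Finset.card_univ]
  rw [h2] at h1
  rw [← h1]
  refine Finset.sum_congr rfl fun α _ => ?_
  simp only [mem_TS]

lemma sum_ch {N : ℕ} [NeZero N] (a : Dr (n + 1)) (f x : Site (n + 1))
    [Decidable (flg (some f) a x)] :
    ∑ α : Fin (n + 1) → ZMod N, ch c q (TS N α) a f x =
      wq q a x * (if flg (some f) a x then 0 else
        q ^ (f 0) * ∑ t ∈ ops n, c.φo (c.mT (lb c (some f) a x) t)) := by
  classical
  unfold ch
  simp only [mem_TS]
  rw [Finset.sum_ite_eq, if_pos (Finset.mem_univ _)]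
  congr 1
  split_ifs <;> rfl

/-- the functional grows at most at the rate `lam` -/
theorem Psi_step (h : c.Ok q lam R) {N : ℕ} [NeZero N] (hN : 2 * R < N) (a : Dr (n + 1)) :
    ∑ α : Fin (n + 1) → ZMod N, Psi c q (upd (TS N α) a) ≤
      ENNReal.ofReal (nT (n + 1) N + lam) * Psi c q a := by
  classical
  have hq := h.one_le
  have hq0 : (0 : ℝ) < q := by linarith
  -- the termwise bound
  have h1 : ∀ α : Fin (n + 1) → ZMod N, Psi c q (upd (TS N α) a) ≤
      ∑' z, ENNReal.ofReal (ow c q (TS N α) a z) +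
        ∑ f ∈ nbrs (0 : Site (n + 1)), ∑' x, ENNReal.ofReal (ch c q (TS N α) a f x) := by
    intro α
    have h2 : ∀ z, ENNReal.ofReal (wt c q (upd (TS N α) a) z) ≤
        ENNReal.ofReal (ow c q (TS N α) a z) +
          ∑ f ∈ nbrs (0 : Site (n + 1)), ENNReal.ofReal (ch c q (TS N α) a f (z - f)) := by
      intro z
      rw [← ENNReal.ofReal_sum_of_nonneg (fun f _ => ch_nonneg hq _ _ _ _),
        ← ENNReal.ofReal_add (ow_nonneg hq _ _ _)
          (Finset.sum_nonneg fun f _ => ch_nonneg hq _ _ _ _)]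
      exact ENNReal.ofReal_le_ofReal (wt_upd_le h (sep_TS hN α) a z)
    refine (ENNReal.tsum_le_tsum h2).trans ?_
    rw [ENNReal.tsum_add]
    refine add_le_add le_rfl (le_of_eq ?_)
    rw [Summable.tsum_finsetSum fun f _ => ENNReal.summable]
    refine Finset.sum_congr rfl fun f _ => ?_
    exact (Equiv.subRight f).tsum_eq (fun x => ENNReal.ofReal (ch c q (TS N α) a f x))
  refine (Finset.sum_le_sum fun α _ => h1 α).trans ?_
  rw [Finset.sum_add_distrib]
  have h3 : ∑ α : Fin (n + 1) → ZMod N, ∑' z, ENNReal.ofReal (ow c q (TS N α) a z) =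
      ∑' z, ENNReal.ofReal (∑ α : Fin (n + 1) → ZMod N, ow c q (TS N α) a z) := by
    rw [← Summable.tsum_finsetSum fun f _ => ENNReal.summable]
    refine tsum_congr fun z => ?_
    rw [ENNReal.ofReal_sum_of_nonneg fun α _ => ow_nonneg hq _ _ _]
  have h4 : ∑ α : Fin (n + 1) → ZMod N, ∑ f ∈ nbrs (0 : Site (n + 1)),
      ∑' x, ENNReal.ofReal (ch c q (TS N α) a f x) =
      ∑' x, ENNReal.ofReal (∑ f ∈ nbrs (0 : Site (n + 1)),
        ∑ α : Fin (n + 1) → ZMod N, ch c q (TS N α) a f x) := by
    rw [Finset.sum_comm]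
    have h5 : ∀ f ∈ nbrs (0 : Site (n + 1)), ∑ α : Fin (n + 1) → ZMod N,
        ∑' x, ENNReal.ofReal (ch c q (TS N α) a f x) =
        ∑' x, ENNReal.ofReal (∑ α : Fin (n + 1) → ZMod N, ch c q (TS N α) a f x) := by
      intro f _
      rw [← Summable.tsum_finsetSum fun f _ => ENNReal.summable]
      refine tsum_congr fun x => ?_
      rw [ENNReal.ofReal_sum_of_nonneg fun α _ => ch_nonneg hq _ _ _ _]
    rw [Finset.sum_congr rfl h5, ← Summable.tsum_finsetSum fun f _ => ENNReal.summable]
    refine tsum_congr fun x => ?_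
    rw [ENNReal.ofReal_sum_of_nonneg fun f _ =>
      Finset.sum_nonneg fun α _ => ch_nonneg hq _ _ _ _]
  rw [h3, h4, ← ENNReal.tsum_add]
  unfold Psi
  rw [← ENNReal.tsum_mul_left]
  refine ENNReal.tsum_le_tsum fun z => ?_
  have hT : (0 : ℝ) < nT (n + 1) N := by exact_mod_cast nT_pos (d := n + 1) N
  rw [← ENNReal.ofReal_mul (by have := h.lam_nonneg; linarith),
    ← ENNReal.ofReal_add (Finset.sum_nonneg fun α _ => ow_nonneg hq _ _ _)
      (Finset.sum_nonneg fun f _ => Finset.sum_nonneg fun α _ => ch_nonneg hq _ _ _ _)]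
  refine ENNReal.ofReal_le_ofReal ?_
  have e1 : ∑ α : Fin (n + 1) → ZMod N, ow c q (TS N α) a z =
      wq q a z * ∑ t ∈ ops n, ∑ α : Fin (n + 1) → ZMod N, owt c q (TS N α) a z t := by
    unfold ow
    rw [← Finset.mul_sum, Finset.sum_comm]
  rw [e1]
  simp only [sum_ch]
  rw [← Finset.mul_sum, ← mul_add]
  unfold wt
  have e2 : ((nT (n + 1) N : ℝ) + lam) * (wq q a z * ∑ t ∈ ops n, (mn c t a z : ℝ)) =
      wq q a z * (∑ t ∈ ops n, ((nT (n + 1) N : ℝ) + lam) * (mn c t a z : ℝ)) := by
    rw [← Finset.mul_sum]; ring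
  rw [e2]
  refine mul_le_mul_of_nonneg_left ?_ (wq_nonneg hq a z)
  -- option by option
  set G : Op n → ℝ := fun t => match t with
    | none => 0
    | some f => if flg (some f) a z then 0 else
        q ^ (f 0) * ∑ t ∈ ops n, c.φo (c.mT (lb c (some f) a z) t) with hG
  have e3 : ∑ f ∈ nbrs (0 : Site (n + 1)), (if flg (some f) a z then 0 else
      q ^ (f 0) * ∑ t ∈ ops n, c.φo (c.mT (lb c (some f) a z) t)) = ∑ t ∈ ops n, G t := by
    rw [sum_ops]
    simp only [hG, zero_add]
  rw [e3, ← Finset.sum_add_distrib]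
  refine Finset.sum_le_sum fun t ht => ?_
  by_cases hfl : flg t a z
  · rw [mn_flg hfl]
    have h6 : ∀ α : Fin (n + 1) → ZMod N, owt c q (TS N α) a z t = 0 := by
      intro α
      unfold owt
      rw [if_pos hfl]
    rw [Finset.sum_congr rfl fun α _ => h6 α, Finset.sum_const_zero]
    have h7 : G t = 0 := by
      cases t with
      | none => rfl
      | some f => simp only [hG]; rw [if_pos hfl]
    rw [h7]
    simp
  obtain ⟨hty, hmn, hval⟩ := lb_spec h ht a z
  rw [sum_owt h hN a z hfl]
  set i := lb c t a z with hi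
  have h5 : mn c t a z = c.φ i := by
    rw [hmn]
    exact if_neg hfl
  rw [h5]
  have h6 : ∑ y ∈ insert 0 (c.E i), vv c q i y + G t =
      wo q t * ∑ t' ∈ ops n, c.φo (c.mT i t') + ∑ y ∈ c.E i, c.φo (c.tgt i y) := by
    rw [Finset.sum_insert (h.E_ne i)]
    have h7 : ∑ y ∈ c.E i, vv c q i y = ∑ y ∈ c.E i, c.φo (c.tgt i y) := by
      refine Finset.sum_congr rfl fun y hy => ?_
      have hy0 : y ≠ 0 := by
        rintro rfl
        exact h.E_ne i hy
      unfold vv
      rw [if_neg hy0]
    have h8 : vv c q i 0 + G t = wo q t * ∑ t' ∈ ops n, c.φo (c.mT i t') := by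
      unfold vv
      rw [if_pos rfl, hty]
      cases t with
      | none =>
        rw [if_pos rfl]
        simp only [hG, add_zero]
        rfl
      | some f =>
        rw [if_neg (by simp)]
        simp only [hG]
        rw [if_neg hfl, zero_add]
        rfl
    rw [h7]
    linarith
  have h9 := h.ineq i (by rw [hty]; exact ht)
  rw [hty, Finset.card_insert_of_notMem (h.E_ne i)] at *
  push_cast
  have h10 : ∑ y ∈ insert 0 (c.E i), vv c q i y +
      ((nT (n + 1) N : ℝ) - ((c.E i).card + 1)) * c.φ i + G t =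
      (∑ y ∈ insert 0 (c.E i), vv c q i y + G t) +
      ((nT (n + 1) N : ℝ) - ((c.E i).card + 1)) * c.φ i := by ring
  rw [h10, h6]
  linarith

end

/-- option label certificates give the functional of the upper bound interface -/
theorem hasPsi [Nonempty ι] {c : OCert n ι} {q lam : ℝ} {R : ℕ} (h : c.Ok q lam R) :
    HasPsi n q lam (Psi c q) := by
  have hq := h.one_le
  refine ⟨⟨2 * R, fun N hN a => ?_⟩, fun a z m hm => ?_, fun w => ?_⟩
  · exact Psi_step h (N := N + 1) (by omega) a
  · have h1 : a z ≠ ⊥ := by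
      intro h0
      rw [h0] at hm
      exact absurd hm (by simp)
    obtain ⟨k, hk⟩ := WithBot.ne_bot_iff_exists.1 h1
    have hk := hk.symm
    have h2 : m ≤ k := by
      rw [hk] at hm
      exact_mod_cast hm
    have h3 : q ^ (m + z 0) ≤ wt c q a z := by
      unfold wt
      rw [wq_eq hk]
      have h4 : q ^ (m + z 0) ≤ q ^ (k + z 0) := zpow_le_zpow_right₀ hq (by linarith)
      have h5 : (1 : ℝ) ≤ ∑ t ∈ ops n, (mn c t a z : ℝ) := by
        have h6 : (1 : ℝ) ≤ mn c none a z := by exact_mod_cast one_le_mn h a z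
        exact h6.trans (Finset.single_le_sum (f := fun t => (mn c t a z : ℝ))
          (fun t _ => Nat.cast_nonneg _) none_mem_ops)
      have h6 : (0 : ℝ) ≤ q ^ (k + z 0) := by
        have : (0 : ℝ) < q := by linarith
        positivity
      nlinarith
    exact (ENNReal.ofReal_le_ofReal h3).trans (ENNReal.le_tsum z)
  · unfold Psi
    have h1 : ∀ z, z ∉ (dr_finite w).toFinset → ENNReal.ofReal (wt c q (dr w) z) = 0 := by
      intro z hz
      rw [Set.Finite.mem_toFinset] at hz
      have hz' : dr w z = ⊥ := by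
        by_contra h3
        exact hz h3
      rw [wt_bot hz', ENNReal.ofReal_zero]
    rw [tsum_eq_sum h1]
    exact (ENNReal.sum_lt_top.2 fun z _ => ENNReal.ofReal_lt_top).ne

end Pool.Agent.Lib.MP_67d80e_pr_opt
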