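import Pool.Agent.Lib.MP_67d80e_pr_opt.ChkOk

/-!
The certificate of a checked table of option labels.
-/

set_option autoImplicit false

open scoped BigOperators
open Pool.Agent.Lib.MP_67d80e_pr Pool.Agent.Lib.MP_67d80e_pr_all Pool.Agent.Lib.MP_67d80e_pr_lab

namespace Pool.Agent.Lib.MP_67d80e_pr_opt

variable {n r l : ℕ} {C : PC}

lemma pc_zero : pc r (0 : Site (n + 1)) = ofs n r := by
  have := pc_cast (inB_zero (n := n) (r + 1)) (r := r)
  rw [lin_zero, zero_add] at this
  exact_mod_cast this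

lemma pos_pc {y : Site (n + 1)} (hy : InB (r + 1) y) :
    MP_67d80e_pr_lab.pos n r (pc r y) = y := by
  have h1 : pc r (MP_67d80e_pr_lab.pos n r (pc r y)) + Pn n r * 0 = pc r y + Pn n r * 0 := by
    rw [pc_pos (pc_lt hy)]
  exact (pc_inj (pos_inB _) hy h1).1

lemma pc_inj' {y z : Site (n + 1)} (hy : InB (r + 1) y) (hz : InB (r + 1) z)
    (h : pc r y = pc r z) : y = z :=
  (pc_inj hy hz (k := 0) (k' := 0) (by rw [h])).1

lemma Pn_pos (n r : ℕ) : 0 < Pn n r := by unfold Pn Bs; positivity

/-- the lower bounds of the label `i` -/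
def KK (n r : ℕ) (C : PC) (i : ℕ) : Set (Site (n + 1) × ℤ) :=
  {p | ∃ j < eM C i, p = (MP_67d80e_pr_lab.pos n r (Nj C i j % Pn n r),
    ((Nj C i j / Pn n r : ℕ) : ℤ) - 1)}

lemma LSpec.site (hC : POk n r l C) {i x : ℕ} (h : LSpec C i x) {j : ℕ} (hj : j < eM C i) :
    ∃ (y : Site (n + 1)) (k : ℕ), InB r y ∧ y ≠ 0 ∧ k < l ∧ Nj C i j = pc r y + Pn n r * k ∧
      Nj C i j % Pn n r = pc r y ∧ Nj C i j / Pn n r = k ∧
      MP_67d80e_pr_lab.pos n r (Nj C i j % Pn n r) = y := by
  have h1 : (cc C i).testBit (Nj C i j) = true := testBit_cd0.2 ⟨j, hj, rfl⟩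
  obtain ⟨y, k, h2, h3, h4, h5⟩ := hC.mIn_ok _ (h.msk _ h1)
  have hy := h2.mono (Nat.le_succ r)
  have hlt := pc_lt hy
  have e1 : Nj C i j % Pn n r = pc r y := by
    rw [h5, Nat.add_mul_mod_self_left, Nat.mod_eq_of_lt hlt]
  have e2 : Nj C i j / Pn n r = k := by
    rw [h5, Nat.add_mul_div_left _ _ (Pn_pos n r), Nat.div_eq_of_lt hlt, zero_add]
  exact ⟨y, k, h2, h3, h4, h5, e1, e2, by rw [e1, pos_pc hy]⟩

/-- the closed code of a label is meaningful -/
lemma W_D (hC : POk n r l C) {i x : ℕ} (h : LSpec C i x) {a : Dr (n + 1)}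
    (ha : V0 a (KK n r C i)) : W r r (dc C (cc C i)) a := by
  intro N hN
  rw [testBit_dc] at hN
  obtain ⟨j, hj, h1⟩ := hN
  obtain ⟨j', hj', h2⟩ := testBit_cd0.1 h1
  obtain ⟨y, k, h3, h4, h5, h6, h7, h8, h9⟩ := h.site hC hj'
  have h10 : N + C.P * j = pc r y + Pn n r * k := h2.trans h6
  rw [hC.P_eq] at h10
  have hlt := pc_lt (h3.mono (Nat.le_succ r))
  have hjk : j ≤ k := by
    by_contra hcon
    rw [not_le] at hcon
    have : Pn n r * (k + 1) ≤ Pn n r * j := Nat.mul_le_mul_left _ hcon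
    rw [Nat.mul_succ] at this
    omega
  obtain ⟨m, rfl⟩ := Nat.exists_eq_add_of_le hjk
  refine ⟨y, m, h3, ?_, ?_⟩
  · rw [Nat.mul_add] at h10
    omega
  · refine Kn.mono (k := j + m) ?_ (by omega)
    have := ha _ ⟨j', hj', rfl⟩
    unfold Kn
    rw [h9, h8] at this
    exact this

lemma D_lt (hC : POk n r l C) {i x : ℕ} (h : LSpec C i x) {N : ℕ}
    (hN : (dc C (cc C i)).testBit N = true) : N < Pn n r * l := by
  rw [testBit_dc] at hN
  obtain ⟨j, hj, h1⟩ := hN
  obtain ⟨j', hj', h2⟩ := testBit_cd0.1 h1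
  obtain ⟨y, k, h3, h4, h5, h6, h7, h8, h9⟩ := h.site hC hj'
  have hlt := pc_lt (h3.mono (Nat.le_succ r))
  have h10 : N + C.P * j = pc r y + Pn n r * k := h2.trans h6
  have : Pn n r * (k + 1) ≤ Pn n r * l := Nat.mul_le_mul_left _ h5
  rw [Nat.mul_succ] at this
  omega

/-- the symmetry of a code -/
noncomputable def gs (hC : POk n r l C) (h : ℕ) : GG n := (hC.sg_ok h).choose

lemma gs_spec (hC : POk n r l C) (h : ℕ) : ∀ y, InB r y →
    InB r ((gs hC h).f y) ∧ C.sg h (pc r y) = pc r ((gs hC h).f y) :=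
  (hC.sg_ok h).choose_spec

/-- the option of a code -/
noncomputable def tyo (n r : ℕ) (C : PC) (y : ℕ) : Op n :=
  if y = 0 then none else some (MP_67d80e_pr_lab.pos n r (C.dt y))

/-- the code of an option -/
noncomputable def ox : Op n → ℕ
  | none => 0
  | some f => sx f + 1

lemma dt_sx (hC : POk n r l C) {f : Site (n + 1)} (hf : f ∈ nbrs (0 : Site (n + 1))) :
    C.dt (sx f + 1) = pc r f := by
  obtain ⟨i, h | h⟩ := mem_nbrs_zero.1 hf
  · rw [h, sx_e]; exact (hC.dt_ok i).1
  · rw [h, sx_neg]; exact (hC.dt_ok i).2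

lemma nbr_InB (hC : POk n r l C) {f : Site (n + 1)} (hf : f ∈ nbrs (0 : Site (n + 1))) :
    InB r f := (nbr_inB hf).mono hC.r_pos

lemma tyo_cases (hC : POk n r l C) {y : ℕ} (hy : y < C.no) :
    (y = 0 ∧ tyo n r C y = none ∧ C.dt y = pc r (0 : Site (n + 1))) ∨
      ∃ f ∈ nbrs (0 : Site (n + 1)), tyo n r C y = some f ∧ C.dt y = pc r f ∧ y = sx f + 1 := by
  rcases Nat.eq_zero_or_pos y with h0 | h0
  · left
    subst h0
    exact ⟨rfl, if_pos rfl, by rw [hC.dt_zero, pc_zero]⟩
  · right
    obtain ⟨s, rfl⟩ : ∃ s, y = s + 1 := ⟨y - 1, by omega⟩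
    rw [hC.no_eq] at hy
    have key : ∀ f ∈ nbrs (0 : Site (n + 1)), sx f = s → ∃ f ∈ nbrs (0 : Site (n + 1)),
        tyo n r C (s + 1) = some f ∧ C.dt (s + 1) = pc r f ∧ s + 1 = sx f + 1 := by
      intro f hf hs
      have h1 := dt_sx hC hf
      rw [hs] at h1
      refine ⟨f, hf, ?_, h1, by rw [hs]⟩
      unfold tyo
      rw [if_neg (Nat.succ_ne_zero s), h1, pos_pc ((nbr_InB hC hf).mono (Nat.le_succ r))]
    rcases Nat.even_or_odd' s with ⟨k, h1 | h1⟩
    · exact key (e ⟨k, by omega⟩) (mem_nbrs_zero.2 ⟨_, Or.inl rfl⟩) ((sx_e _).trans h1.symm)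
    · exact key (-e ⟨k, by omega⟩) (mem_nbrs_zero.2 ⟨_, Or.inr rfl⟩) ((sx_neg _).trans h1.symm)

lemma tyo_mem (hC : POk n r l C) {y : ℕ} (hy : y < C.no) : tyo n r C y ∈ ops n := by
  rcases tyo_cases hC hy with ⟨_, h, _⟩ | ⟨f, hf, h, _⟩
  · rw [h]; exact none_mem_ops
  · rw [h]; exact some_mem_ops.2 hf

lemma ox_tyo (hC : POk n r l C) {y : ℕ} (hy : y < C.no) : ox (tyo n r C y) = y := by
  rcases tyo_cases hC hy with ⟨h0, h, _⟩ | ⟨f, hf, h, _, h2⟩
  · rw [h, h0]; rfl
  · rw [h]; exact h2.symm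

lemma ox_lt (hC : POk n r l C) {s : Op n} (hs : s ∈ ops n) : ox s < C.no := by
  rw [hC.no_eq]
  cases s with
  | none => exact Nat.succ_pos _
  | some f =>
    have := sx_lt (some_mem_ops.1 hs)
    change sx f + 1 < _
    omega

/-- the option of a target -/
lemma ty_ok (hC : POk n r l C) {y h : ℕ} (hy : y < C.no) {s : Op n} (hs : s ∈ ops n)
    (he : C.sg h (C.dt y) = C.dt (ox s)) : mp (gs hC h) (tyo n r C y) = s := by
  have hin : ∀ z : Site (n + 1), InB r z → InB (r + 1) z := fun z hz => hz.mono (Nat.le_succ r)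
  rcases tyo_cases hC hy with ⟨h0, h1, h2⟩ | ⟨f, hf, h1, h2, -⟩
  · rw [h1]
    rw [h2, (gs_spec hC h 0 (inB_zero r)).2, map_zero] at he
    cases s with
    | none => rfl
    | some f' =>
      exfalso
      have hf' := some_mem_ops.1 hs
      change _ = C.dt (sx f' + 1) at he
      rw [dt_sx hC hf'] at he
      have := pc_inj' (inB_zero _) (hin _ (nbr_InB hC hf')) he
      exact ne_of_mem_nbrs hf' this.symm
  · rw [h1]
    obtain ⟨h3, h4⟩ := gs_spec hC h f (nbr_InB hC hf)
    rw [h2, h4] at he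
    have hg : (gs hC h).f f ∈ nbrs (0 : Site (n + 1)) := ((gs hC h).nbr f).2 hf
    cases s with
    | none =>
      exfalso
      change _ = C.dt 0 at he
      rw [hC.dt_zero, ← pc_zero] at he
      have := pc_inj' (hin _ h3) (inB_zero _) he
      exact ne_of_mem_nbrs hg this
    | some f' =>
      have hf' := some_mem_ops.1 hs
      change _ = C.dt (sx f' + 1) at he
      rw [dt_sx hC hf'] at he
      have := pc_inj' (hin _ h3) (hin _ (nbr_InB hC hf')) he
      change some ((gs hC h).f f) = some f'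
      rw [this]

/-- the containment of the code of a target -/
lemma target (hC : POk n r l C) {t h img x' : ℕ} (ht : LSpec C t x') {o : ℕ}
    (himg : ∀ N, img.testBit N = true → N < Pn n r * l)
    (hl : Nat.land (tc C t h) (Nat.lor img (ob C o)) = tc C t h) :
    C.sg h (C.dt (eT C t)) = C.dt o ∧ ∀ j < eM C t,
      img.testBit (C.sg h (Nj C t j % Pn n r) + Pn n r * (Nj C t j / Pn n r)) = true := by
  have hob : ∀ N, (ob C o).testBit N = true ↔ N = Pn n r * l + C.dt o := by
    intro N
    unfold ob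
    rw [testBit_one_shl, ← hC.F_eq]
    rfl
  have htc : ∀ N, (tc C t h).testBit N = true ↔
      (cdl C h (eM C t) (eS C t)).testBit N = true ∨
        N = Pn n r * l + C.sg h (C.dt (eT C t)) := by
    intro N
    unfold tc
    rw [testBit_lor, testBit_one_shl, ← hC.F_eq]
    rfl
  constructor
  · have h1 := testBit_of_land_eq' hl ((htc _).2 (Or.inr rfl))
    rw [testBit_lor, hob] at h1
    rcases h1 with h1 | h1
    · have := himg _ h1
      omega
    · omega
  · intro j hj
    have h1 := testBit_of_land_eq' hl ((htc _).2 (Or.inl (testBit_cdl.2 ⟨j, hj, rfl⟩)))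
    obtain ⟨y, k, h3, h4, h5, h6, h7, h8, h9⟩ := ht.site hC hj
    change (Nat.lor img (ob C o)).testBit (C.sg h (Nj C t j % C.P) + C.P * (Nj C t j / C.P)) =
      true at h1
    rw [hC.P_eq] at h1
    rw [testBit_lor, hob] at h1
    rcases h1 with h1 | h1
    · exact h1
    · exfalso
      obtain ⟨h10, h11⟩ := gs_spec hC h y h3
      rw [h7, h8, h11] at h1
      have h12 := pc_lt (h10.mono (Nat.le_succ r))
      have : Pn n r * (k + 1) ≤ Pn n r * l := Nat.mul_le_mul_left _ h5
      rw [Nat.mul_succ] at this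
      omega

/-- a target is valid -/
lemma target_V0 (hC : POk n r l C) {t h img x' : ℕ} (ht : LSpec C t x') {a : Dr (n + 1)}
    (hW : W r (r + 1) img a) (hb : ∀ j < eM C t,
      img.testBit (C.sg h (Nj C t j % Pn n r) + Pn n r * (Nj C t j / Pn n r)) = true) :
    V0 (tw (gs hC h) 0 a) (KK n r C t) := by
  rintro p ⟨j, hj, rfl⟩
  obtain ⟨y, k, h3, h4, h5, h6, h7, h8, h9⟩ := ht.site hC hj
  have h1 := hb j hj
  obtain ⟨h10, h11⟩ := gs_spec hC h y h3
  rw [h7, h8, h11] at h1
  have h2 := hW.get (h10.mono (Nat.le_succ r)) h1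
  rw [tw_zero]
  dsimp only
  rw [h9, h8]
  unfold tw
  rw [zero_add]
  exact h2

lemma W.mod {ρ c m : ℕ} {a : Dr (n + 1)} (h : W r ρ c a) : W r ρ (c % 2 ^ m) a := by
  intro N hN
  rw [Nat.testBit_mod_two_pow, Bool.and_eq_true] at hN
  exact h N hN.2

lemma mod_lt {c m N : ℕ} (h : (c % 2 ^ m).testBit N = true) : N < m := by
  rw [Nat.testBit_mod_two_pow, Bool.and_eq_true, decide_eq_true_eq] at h
  exact h.1

lemma imM_lt (hC : POk n r l C) {D y N : ℕ} (h : (imM C D y).testBit N = true) :
    N < Pn n r * l := by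
  unfold imM at h
  rw [hC.F2_eq] at h
  exact mod_lt h

/-- the image after a ring of the centre, own option -/
lemma W_own (hC : POk n r l C) {D : ℕ} {a : Dr (n + 1)} (h : W r r D a) :
    W r (r + 1) (imM C D 0) (upd {0} a) := by
  have h2 := W.own (hC.rp_ok 0 (by have := hC.l_ge; omega)) (by
    have := hC.M_le 0 (inB_zero r)
    rwa [pc_zero] at this) h
  have h3 : imM C D 0 = ((D >>> Pn n r) ||| (C.rp 0 <<< (ofs n r - C.M))) %
      2 ^ (Pn n r * l) := by
    unfold imM
    rw [hC.F2_eq, hC.P_eq, hC.O_eq]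
    rfl
  rw [h3]
  exact W.mod h2

/-- the image after a ring of the centre, seen from the new neighbour -/
lemma W_child (hC : POk n r l C) {D : ℕ} {a : Dr (n + 1)} (h : W r r D a) {f : Site (n + 1)}
    (hf : f ∈ nbrs (0 : Site (n + 1))) (hlt : a f < a 0) :
    W r (r + 1) (imM C D (sx f + 1)) (sh f (upd {0} a)) := by
  have hfr : InB r f := nbr_InB hC hf
  have hnf : InB r (-f) := hfr.neg
  have h2 := W.child hC.r_pos (hC.rp_ok 1 (by have := hC.l_ge; omega)) hf (hC.M_le _ hnf) h hlt
  have h7 : 2 * ofs n r - pc r f = pc r (-f) := by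
    have h8 := pc_cast (hfr.mono (Nat.le_succ r))
    have h9 := pc_cast (hnf.mono (Nat.le_succ r))
    rw [lin_neg] at h9
    omega
  have h3 : imM C D (sx f + 1) = ((if ofs n r ≤ pc r f then D >>> (pc r f - ofs n r) else
      D <<< (ofs n r - pc r f)) ||| (C.rp 1 <<< (pc r (-f) - C.M))) % 2 ^ (Pn n r * l) := by
    unfold imM
    change Nat.mod (Nat.lor (shc C D (C.dt (sx f + 1))) (Nat.shiftLeft (C.rp 1)
      (Nat.sub (Nat.sub (Nat.mul 2 C.O) (C.dt (sx f + 1))) C.M))) C.F2 = _
    rw [hC.F2_eq, hC.O_eq, dt_sx hC hf]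
    have h10 : Nat.sub (Nat.mul 2 (ofs n r)) (pc r f) = pc r (-f) := h7
    rw [h10]
    have h11 : shc C D (pc r f) = if ofs n r ≤ pc r f then D >>> (pc r f - ofs n r) else
        D <<< (ofs n r - pc r f) := by
      unfold shc
      rw [hC.O_eq]
      by_cases h12 : ofs n r ≤ pc r f
      · rw [if_pos h12, ble_iff.2 h12]; rfl
      · rw [if_neg h12]
        have : Nat.ble (ofs n r) (pc r f) = false := by
          rw [← Bool.not_eq_true, ble_iff]; exact h12
        rw [this]; rfl
    rw [h11]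
    rfl
  rw [h3]
  exact W.mod h2

/-- the image after a ring at a site -/
lemma W_ring (hC : POk n r l C) {D N : ℕ} {a : Dr (n + 1)} (h : W r r D a) {y : Site (n + 1)}
    {k : ℕ} (hy : InB r y) (hy0 : y ≠ 0) (hkl : k < l) (hN1 : N % Pn n r = pc r y)
    (hN2 : N / Pn n r = k) (hk : Kn a y k)
    (hle : y ∈ nbrs (0 : Site (n + 1)) → a y ≤ a 0) :
    W r (r + 1) (Nat.lor D (st C N)) (upd {y} a) := by
  have h2 := W.ring (hC.rp_ok k hkl) hy hy0 (hC.M_le _ hy) h hk hle
  have h3 : st C N = (C.rp k <<< (pc r y - C.M)) % 2 ^ (Pn n r * l) := by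
    unfold st
    rw [hC.F2_eq, hC.P_eq]
    change ((C.rp (N / Pn n r)) <<< (N % Pn n r - C.M)) % 2 ^ (Pn n r * l) = _
    rw [hN1, hN2]
  intro M hM
  rw [testBit_lor] at hM
  apply h2
  rw [Nat.testBit_or, Bool.or_eq_true]
  rcases hM with hM | hM
  · exact Or.inl hM
  · right
    rw [h3, Nat.testBit_mod_two_pow, Bool.and_eq_true] at hM
    exact hM.2

lemma ring_lt (hC : POk n r l C) {i x M N : ℕ} (h : LSpec C i x)
    (hM : (Nat.lor (dc C (cc C i)) (st C N)).testBit M = true) : M < Pn n r * l := by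
  rw [testBit_lor] at hM
  rcases hM with hM | hM
  · exact D_lt hC h hM
  · unfold st at hM
    rw [hC.F2_eq] at hM
    exact mod_lt hM

lemma lor_perm (a b c : ℕ) : Nat.lor (Nat.lor a b) c = Nat.lor (Nat.lor a c) b := by
  change (a ||| b) ||| c = (a ||| c) ||| b
  rw [Nat.lor_assoc, Nat.lor_comm b c, ← Nat.lor_assoc]

/-- the sites of a label with a weight are at different positions -/
lemma Main.inj (hC : POk n r l C) {i x : ℕ} (h : LSpec C i x) (hm : Main C i x) {j j' : ℕ}
    (hj : j < eE C i) (hj' : j' < eE C i)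
    (he : MP_67d80e_pr_lab.pos n r (Nj C i j % Pn n r) =
      MP_67d80e_pr_lab.pos n r (Nj C i j' % Pn n r)) : j = j' := by
  have hlt : ∀ j j', j' < eE C i → j < j' → Nj C i j < Nj C i j' := by
    intro j j' hj' hjj
    induction j' with
    | zero => omega
    | succ j' ih =>
      rcases Nat.lt_succ_iff_lt_or_eq.1 hjj with h1 | h1
      · exact (ih (by omega) h1).trans (hm.inc j' hj')
      · rw [h1]; exact hm.inc j' hj'
  have key : ∀ j j', j' < eE C i → j < j' →
      MP_67d80e_pr_lab.pos n r (Nj C i j % Pn n r) =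
        MP_67d80e_pr_lab.pos n r (Nj C i j' % Pn n r) → False := by
    intro j j' hj' hjj he
    have hj1 : j < eM C i := lt_of_lt_of_le (by omega : j < eE C i) hm.le
    have hj2 : j' < eM C i := lt_of_lt_of_le hj' hm.le
    obtain ⟨y, k, h3, h4, h5, h6, h7, h8, h9⟩ := h.site hC hj1
    obtain ⟨y', k', h3', h4', h5', h6', h7', h8', h9'⟩ := h.site hC hj2
    rw [h9, h9'] at he
    subst he
    have h10 := hlt j j' hj' hjj
    rw [h6, h6'] at h10
    have hkk : k < k' := by
      by_contra hcon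
      rw [not_lt] at hcon
      have : Pn n r * k' ≤ Pn n r * k := Nat.mul_le_mul_left _ hcon
      omega
    have h11 := hm.disj (Nj C i j) (testBit_cd0.2 ⟨j, hj1, rfl⟩)
    rw [← Bool.not_eq_true] at h11
    apply h11
    rw [testBit_dc]
    obtain ⟨m, rfl⟩ := Nat.exists_eq_add_of_lt hkk
    refine ⟨m, by have := hC.l_le; omega, ?_⟩
    refine testBit_cd0.2 ⟨j', hj2, ?_⟩
    change Nj C i j + C.P + C.P * m = Nj C i j'
    rw [h6, h6', hC.P_eq]
    ring
  rcases lt_trichotomy j j' with h1 | h1 | h1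
  · exact absurd he (fun he => key j j' hj' h1 he)
  · exact h1
  · exact absurd he.symm (fun he => key j' j hj h1 he)

/-- a label -/
def toF {N : ℕ} (b : Fin N) (t : ℕ) : Fin N := if h : t < N then ⟨t, h⟩ else b

lemma toF_val {N : ℕ} {b : Fin N} {t : ℕ} (h : t < N) : (toF b t : ℕ) = t := by
  unfold toF; rw [dif_pos h]

open Classical in
/-- the certificate of a table -/
noncomputable def cert (hC : POk n r l C) (X : ℕ → ℕ) : OBCert n (Fin C.N) where
  K b := KK n r C b
  φ b := eP C b
  ty b := tyo n r C (eT C b)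
  mT b s := if eP C b = 0 then none else
    some (toF b (evn C (X b) (ox s) % 1048576), gs hC (evn C (X b) (ox s) >>> 20))
  E b := if eP C b = 0 then ∅ else
    (Finset.range (eE C b)).image fun j => MP_67d80e_pr_lab.pos n r (Nj C b j % Pn n r)
  tgt b y := if h : ∃ j, j < eE C b ∧ MP_67d80e_pr_lab.pos n r (Nj C b j % Pn n r) = y then
    (if kl C (Nj C b h.choose) = 0 then
      some (toF b (evn C (X b) (C.no + h.choose) % 1048576),
        gs hC (evn C (X b) (C.no + h.choose) >>> 20)) else none) else none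

lemma cert_tgt (hC : POk n r l C) {X : ℕ → ℕ} {b : Fin C.N} (h : LSpec C b (X b))
    (hm : Main C b (X b)) {j : ℕ} (hj : j < eE C b) :
    (cert hC X).tgt b (MP_67d80e_pr_lab.pos n r (Nj C b j % Pn n r)) =
      if kl C (Nj C b j) = 0 then some (toF b (evn C (X b) (C.no + j) % 1048576),
        gs hC (evn C (X b) (C.no + j) >>> 20)) else none := by
  unfold cert
  have hex : ∃ j', j' < eE C b ∧ MP_67d80e_pr_lab.pos n r (Nj C b j' % Pn n r) =
      MP_67d80e_pr_lab.pos n r (Nj C b j % Pn n r) := ⟨j, hj, rfl⟩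
  dsimp only
  rw [dif_pos hex]
  have h1 : hex.choose = j := hm.inj hC h hex.choose_spec.1 hj hex.choose_spec.2
  rw [h1]

lemma kl_pos {N : ℕ} : kl C N = 0 ∨ C.mKill.testBit N = true := by
  have h6 := bt_eq C.mKill N
  unfold bt at h6
  change Nat.beq (kl C N) 1 = _ at h6
  have h7 : kl C N < 2 := Nat.mod_lt _ (by norm_num)
  rcases Nat.lt_or_ge (kl C N) 1 with h8 | h8
  · left; omega
  · right
    rw [← h6, beq_iff]
    omega

lemma wo_wy (hC : POk n r l C) {y : ℕ} (hy : y < C.no) :
    wo C.q (tyo n r C y) * ((C.qa : ℝ) * C.qb) = wy C y := by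
  have hqb : (0 : ℝ) < C.qb := by exact_mod_cast hC.qb_pos
  have hqa : (0 : ℝ) < C.qa := lt_of_lt_of_le hqb (by exact_mod_cast hC.qa_ge)
  have e1 : C.q * ((C.qa : ℝ) * C.qb) = ((C.qa * C.qa : ℕ) : ℝ) := by
    unfold PC.q
    push_cast
    field_simp
  rcases tyo_cases hC hy with ⟨h0, h1, -⟩ | ⟨f, hf, h1, -, h2⟩
  · rw [h1, h0]
    exact e1
  · rw [h1, h2]
    change C.q ^ (f 0) * _ = _
    obtain ⟨i, h3 | h3⟩ := mem_nbrs_zero.1 hf
    · subst h3
      rw [sx_e]
      by_cases hi : i = 0
      · subst hi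
        unfold e
        rw [Pi.single_eq_same, zpow_one]
        exact e1
      · have h4 : (e i : Site (n + 1)) 0 = 0 := by
          unfold e
          rw [Pi.single_eq_of_ne (Ne.symm hi)]
        rw [h4, zpow_zero, one_mul]
        have h5 : 1 ≤ (i : ℕ) := Nat.one_le_iff_ne_zero.2 (fun h => hi (Fin.ext h))
        have h6 : Nat.ble (2 * (i : ℕ) + 1) 1 = false := by
          rw [← Bool.not_eq_true, ble_iff]; omega
        have h7 : Nat.beq (2 * (i : ℕ) + 1) 2 = false := by
          rw [← Bool.not_eq_true, beq_iff]; omega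
        unfold wy
        rw [h6, h7]
        change _ = ((C.qa * C.qb : ℕ) : ℝ)
        push_cast
        ring
    · subst h3
      rw [sx_neg]
      by_cases hi : i = 0
      · subst hi
        have h4 : (-e 0 : Site (n + 1)) 0 = -1 := by
          unfold e
          rw [Pi.neg_apply, Pi.single_eq_same]
        rw [h4]
        have h8 : wy C (2 * ((0 : Fin (n + 1)) : ℕ) + 1 + 1) = C.qb * C.qb := rfl
        rw [h8, zpow_neg_one]
        unfold PC.q
        push_cast
        field_simp
      · have h4 : (-e i : Site (n + 1)) 0 = 0 := by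
          unfold e
          rw [Pi.neg_apply, Pi.single_eq_of_ne (Ne.symm hi), neg_zero]
        rw [h4, zpow_zero, one_mul]
        have h5 : 1 ≤ (i : ℕ) := Nat.one_le_iff_ne_zero.2 (fun h => hi (Fin.ext h))
        have h6 : Nat.ble (2 * (i : ℕ) + 1 + 1) 1 = false := by
          rw [← Bool.not_eq_true, ble_iff]; omega
        have h7 : Nat.beq (2 * (i : ℕ) + 1 + 1) 2 = false := by
          rw [← Bool.not_eq_true, beq_iff]; omega
        unfold wy
        rw [h6, h7]
        change _ = ((C.qa * C.qb : ℕ) : ℝ)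
        push_cast
        ring

/-- a sum over the options -/
lemma sum_ox (hC : POk n r l C) (F : Op n → ℝ) (G : ℕ → ℝ)
    (h : ∀ t ∈ ops n, F t = G (ox t)) : ∑ t ∈ ops n, F t = ∑ o ∈ Finset.range C.no, G o := by
  rw [sum_ops, hC.no_eq, Finset.sum_range_succ', add_comm]
  congr 1
  · exact sum_nbrs _ _ fun f hf => h _ (some_mem_ops.2 hf)
  · exact h _ none_mem_ops

theorem cert_ok (hC : POk n r l C) {X R : ℕ → ℕ} (hroot : root C R = true)
    (hall : ∀ i < C.N, LSpec C i (X i)) : (cert hC X).Ok C.q C.lam r := by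
  classical
  have hty : ∀ i : Fin C.N, (cert hC X).ty i = tyo n r C (eT C i) := fun _ => rfl
  have hMain : ∀ i : Fin C.N, eP C i ≠ 0 → Main C i (X i) := by
    intro i hi
    rcases (hall i i.2).or with h | h
    · exact absurd h.1 hi
    · exact h
  have hown : ∀ i : Fin C.N, (cert hC X).ty i = none → eT C i = 0 := by
    intro i hi
    rw [hty] at hi
    have h1 := ox_tyo hC (hall i i.2).ty
    rw [hi] at h1
    exact h1.symm
  have hpos : ∀ i : Fin C.N, (cert hC X).ty i = none → Main C i (X i) := by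
    intro i hi
    rcases (hall i i.2).or with h | h
    · have := hown i hi
      omega
    · exact h
  have hchild : ∀ i : Fin C.N, ∀ f ∈ nbrs (0 : Site (n + 1)), (cert hC X).ty i = some f →
      eT C i = sx f + 1 := by
    intro i f hf hi
    rw [hty] at hi
    have h1 := ox_tyo hC (hall i i.2).ty
    rw [hi] at h1
    exact h1.symm
  -- the next label after the main event
  have hmT : ∀ i : Fin C.N, Main C i (X i) → ∀ t ∈ ops n, ∀ j, (cert hC X).mT i t = some j →
      j = (toF i (evn C (X i) (ox t) % 1048576), gs hC (evn C (X i) (ox t) >>> 20)) := by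
    intro i hm t ht j hj
    change (if eP C i = 0 then none else _) = some j at hj
    rw [if_neg (by have := hm.pos; omega), Option.some_inj] at hj
    exact hj.symm
  have hmain : ∀ i : Fin C.N, Main C i (X i) → ∀ t ∈ ops n, ∀ j, (cert hC X).mT i t = some j →
      mp j.2 ((cert hC X).ty j.1) = t ∧ ∀ a' : Dr (n + 1),
        W r (r + 1) (imM C (dc C (cc C i)) (eT C i)) a' →
          V0 (tw j.2 0 a') ((cert hC X).K j.1) := by
    intro i hm t ht j hj
    rw [hmT i hm t ht j hj]
    have ho := ox_lt hC ht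
    obtain ⟨h1, h2, h3⟩ := val_spec (hm.main _ ho)
    have hlt := hall _ h1
    obtain ⟨h4, h5⟩ := target hC hlt (fun N hN => imM_lt hC hN) h3
    constructor
    · change mp (gs hC _) (tyo n r C (eT C (toF i _ : Fin C.N))) = t
      rw [toF_val h1]
      exact ty_ok hC hlt.ty ht h4
    · intro a' hW
      change V0 (tw (gs hC _) 0 a') (KK n r C (toF i _ : Fin C.N))
      rw [toF_val h1]
      exact target_V0 hC hlt hW h5
  have hnone : ∀ i : Fin C.N, ∀ t, (cert hC X).mT i t = none → eP C i = 0 := by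
    intro i t h
    by_contra hcon
    change (if eP C i = 0 then none else _) = none at h
    rw [if_neg hcon] at h
    exact absurd h (by simp)
  have hE : ∀ i : Fin C.N, ∀ y ∈ (cert hC X).E i, Main C i (X i) ∧ ∃ j, j < eE C i ∧
      MP_67d80e_pr_lab.pos n r (Nj C i j % Pn n r) = y := by
    intro i y hy
    change y ∈ (if eP C i = 0 then ∅ else _) at hy
    by_cases h0 : eP C i = 0
    · rw [if_pos h0] at hy
      exact absurd hy (Finset.notMem_empty _)
    · rw [if_neg h0] at hy
      obtain ⟨j, hj, h1⟩ := Finset.mem_image.1 hy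
      exact ⟨hMain i h0, j, Finset.mem_range.1 hj, h1⟩
  refine
    { one_le := ?_
      lam_nonneg := by unfold PC.lam; positivity
      root := ?_
      pos := fun i hi => (hpos i hi).pos
      own_ok := ?_
      own_flg := ?_
      child_ok := ?_
      child_flg := ?_
      E_ne := ?_
      E_le := ?_
      tgt_ok := ?_
      kill_ok := ?_
      ineq := ?_ }
  · unfold PC.q
    have h1 : (0 : ℝ) < C.qb := by exact_mod_cast hC.qb_pos
    rw [le_div_iff₀ h1, one_mul]
    exact_mod_cast hC.qa_ge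
  · intro t ht
    have h1 : root1 C (ox t) (R (ox t)) = true := allN_spec hroot (ox_lt hC ht)
    unfold root1 at h1
    rw [brec_iff, brec_iff, ble_iff, beq_iff, beq_iff] at h1
    obtain ⟨h2, h3, h4⟩ := h1
    have h2' : R (ox t) % 1048576 < C.N := h2
    refine ⟨⟨_, h2'⟩, gs hC (R (ox t) >>> 20), ?_, ?_⟩
    · exact ty_ok hC (hall _ h2').ty ht h4
    · change KK n r C (R (ox t) % 1048576) = ∅
      unfold KK
      rw [Set.eq_empty_iff_forall_notMem]
      rintro p ⟨j, hj, -⟩
      have h5 : eM C (R (ox t) % 1048576) = 0 := h3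
      rw [h5] at hj
      omega
  · intro i hi t ht j hj
    obtain ⟨h1, h2⟩ := hmain i (hpos i hi) t ht j hj
    refine ⟨h1, fun a _ hv => h2 _ ?_⟩
    rw [hown i hi]
    exact W_own hC (W_D hC (hall i i.2) hv)
  · intro i hi t ht hj
    have h1 := hnone i t hj
    have h2 := (hpos i hi).pos
    omega
  · intro i f hf hi t ht j hj
    have h0 : eP C i ≠ 0 := by
      intro h0
      change (if eP C i = 0 then none else _) = some j at hj
      rw [if_pos h0] at hj
      exact absurd hj (by simp)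
    obtain ⟨h1, h2⟩ := hmain i (hMain i h0) t ht j hj
    refine ⟨h1, fun a _ hv hlt => ?_⟩
    have h3 : tw j.2 f (upd {0} a) = tw j.2 0 (sh f (upd {0} a)) := by
      funext y
      unfold tw sh
      rw [zero_add]
    rw [h3]
    apply h2
    rw [hchild i f hf hi]
    exact W_child hC (W_D hC (hall i i.2) hv) hf hlt
  · intro i f hf hi t ht hj a hne hv hlt
    exfalso
    have h1 := hnone i t hj
    rcases (hall i i.2).or with h | h
    · obtain ⟨-, -, h2⟩ := h
      rw [hchild i f hf hi, dt_sx hC hf] at h2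
      have h3 := W_D hC (hall i i.2) hv
      have hfr := nbr_InB hC hf
      have h4 : Kn a f 1 := by
        refine (h3.mono (Nat.le_succ r)).get (hfr.mono (Nat.le_succ r)) ?_
        rw [mul_one, Nat.add_comm, ← hC.P_eq]
        exact h2
      unfold Kn at h4
      have h5 : a 0 + (((1 : ℕ) : ℤ) - 1 : ℤ) = a 0 := by
        simp
      rw [h5] at h4
      exact absurd (lt_of_le_of_lt h4 hlt) (lt_irrefl _)
    · have := h.pos
      omega
  · intro i h0
    obtain ⟨hm, j, hj, h1⟩ := hE i 0 h0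
    obtain ⟨y, k, h3, h4, h5, h6, h7, h8, h9⟩ :=
      (hall i i.2).site hC (lt_of_lt_of_le hj hm.le)
    rw [h9] at h1
    exact h4 h1
  · intro i y hy
    obtain ⟨hm, j, hj, h1⟩ := hE i y hy
    obtain ⟨y', k, h3, h4, h5, h6, h7, h8, h9⟩ :=
      (hall i i.2).site hC (lt_of_lt_of_le hj hm.le)
    rw [h9] at h1
    rw [← h1]
    exact h3
  · intro i y hy t ht
    obtain ⟨hm, j, hj, h1⟩ := hE i y hy
    subst h1
    have hs := hall i i.2
    rw [cert_tgt hC hs hm hj] at ht
    by_cases hk : kl C (Nj C i j) = 0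
    · rw [if_pos hk, Option.some_inj] at ht
      subst ht
      have h2 := hm.ring j hj hk
      rw [lor_perm] at h2
      obtain ⟨h3, h4, h5⟩ := val_spec h2
      have hlt := hall _ h3
      obtain ⟨h6, h7⟩ := target hC hlt (fun N hN => ring_lt hC hs hN) h5
      constructor
      · change mp (gs hC _) (tyo n r C (eT C (toF i _ : Fin C.N))) = tyo n r C (eT C i)
        rw [toF_val h3]
        refine ty_ok hC hlt.ty (tyo_mem hC hs.ty) ?_
        rw [ox_tyo hC hs.ty]
        exact h6
      · intro a hne hv hle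
        change V0 (tw (gs hC _) 0 _) (KK n r C (toF i _ : Fin C.N))
        rw [toF_val h3]
        have hj1 : j < eM C i := lt_of_lt_of_le hj hm.le
        obtain ⟨y, k, h8, h9, h10, h11, h12, h13, h14⟩ := hs.site hC hj1
        have h15 : Kn a y k := by
          have := hv _ ⟨j, hj1, rfl⟩
          unfold Kn
          rw [h14, h13] at this
          exact this
        rw [h14] at hle ⊢
        exact target_V0 hC hlt (W_ring hC (W_D hC hs hv) h8 h9 h10 h12 h13 h15 hle) h7
    · rw [if_neg hk] at ht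
      exact absurd ht (by simp)
  · intro i y hy ht a hne hv hle
    exfalso
    obtain ⟨hm, j, hj, h1⟩ := hE i y hy
    subst h1
    have hs := hall i i.2
    rw [cert_tgt hC hs hm hj] at ht
    by_cases hk : kl C (Nj C i j) = 0
    · rw [if_pos hk] at ht
      exact absurd ht (by simp)
    · have hj1 : j < eM C i := lt_of_lt_of_le hj hm.le
      obtain ⟨y, k, h8, h9, h10, h11, h12, h13, h14⟩ := hs.site hC hj1
      rcases kl_pos (C := C) (N := Nj C i j) with h2 | h2
      · exact hk h2
      rw [h11] at h2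
      obtain ⟨h3, h4⟩ := hC.mKill_ok y k h8 h10 h2
      rw [h14] at hle
      have h5 := hle h3
      have h6 := hv _ ⟨j, hj1, rfl⟩
      rw [h14, h13] at h6
      have h7 := le_trans h6 h5
      obtain ⟨b, hb⟩ := WithBot.ne_bot_iff_exists.1 hne
      rw [← hb] at h7
      have h16 : b + ((k : ℤ) - 1) ≤ b := by exact_mod_cast h7
      omega
  · intro i hi
    have hs := hall i i.2
    by_cases h0 : eP C i = 0
    · have h1 : ∀ t, (cert hC X).mT i t = none := fun t => if_pos h0
      have h2 : (cert hC X).E i = ∅ := if_pos h0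
      have h3 : ((cert hC X).φ i : ℝ) = 0 := by
        change ((eP C i : ℕ) : ℝ) = 0
        rw [h0]
        simp
      rw [h2, h3]
      simp only [h1, OBCert.φo, Finset.sum_const_zero, Finset.sum_empty, mul_zero, add_zero,
        le_refl]
    · have hm := hMain i h0
      have hqb : (0 : ℝ) < C.qb := by exact_mod_cast hC.qb_pos
      have hqa : (0 : ℝ) < C.qa := lt_of_lt_of_le hqb (by exact_mod_cast hC.qa_ge)
      have hld : (0 : ℝ) < C.ld := by exact_mod_cast hC.ld_pos
      have e1 : ∑ t ∈ ops n, (cert hC X).φo ((cert hC X).mT i t) =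
          ((∑ o ∈ Finset.range C.no, val C (evn C (X i) o)
            (Nat.lor (imM C (dc C (cc C i)) (eT C i)) (ob C o)) : ℕ) : ℝ) := by
        push_cast
        refine sum_ox hC _ _ fun t ht => ?_
        have h1 : (cert hC X).mT i t = some (toF i (evn C (X i) (ox t) % 1048576),
            gs hC (evn C (X i) (ox t) >>> 20)) := if_neg h0
        rw [h1]
        obtain ⟨h2, h3, -⟩ := val_spec (hm.main _ (ox_lt hC ht))
        rw [h3]
        change ((eP C (toF i _ : Fin C.N) : ℕ) : ℝ) = _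
        rw [toF_val h2]
      have e2 : ∑ y ∈ (cert hC X).E i, (cert hC X).φo ((cert hC X).tgt i y) =
          ((∑ j ∈ Finset.range (eE C i), (if kl C (Nj C i j) = 0 then
            val C (evn C (X i) (C.no + j)) (Nat.lor (Nat.lor (dc C (cc C i)) (ob C (eT C i)))
              (st C (Nj C i j))) else 0) : ℕ) : ℝ) := by
        have h1 : (cert hC X).E i = (Finset.range (eE C i)).image fun j =>
            MP_67d80e_pr_lab.pos n r (Nj C i j % Pn n r) := if_neg h0
        rw [h1, Finset.sum_image (fun j hj j' hj' he => hm.inj hC hs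
          (Finset.mem_range.1 (Finset.mem_coe.1 hj)) (Finset.mem_range.1 (Finset.mem_coe.1 hj')) he)]
        push_cast
        refine Finset.sum_congr rfl fun j hj => ?_
        rw [Finset.mem_range] at hj
        rw [cert_tgt hC hs hm hj]
        by_cases hk : kl C (Nj C i j) = 0
        · rw [if_pos hk, if_pos hk]
          obtain ⟨h2, h3, -⟩ := val_spec (hm.ring j hj hk)
          rw [h3]
          change ((eP C (toF i _ : Fin C.N) : ℕ) : ℝ) = _
          rw [toF_val h2]
        · rw [if_neg hk, if_neg hk]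
          simp [OBCert.φo]
      have e3 : (((cert hC X).E i).card : ℝ) = eE C i := by
        have h1 : (cert hC X).E i = (Finset.range (eE C i)).image fun j =>
            MP_67d80e_pr_lab.pos n r (Nj C i j % Pn n r) := if_neg h0
        rw [h1, Finset.card_image_of_injOn (fun j hj j' hj' he => hm.inj hC hs
          (Finset.mem_range.1 (Finset.mem_coe.1 hj)) (Finset.mem_range.1 (Finset.mem_coe.1 hj')) he),
          Finset.card_range]
      rw [e1, e2, e3]
      have hw := hm.w
      set S1 := ∑ o ∈ Finset.range C.no, val C (evn C (X i) o)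
            (Nat.lor (imM C (dc C (cc C i)) (eT C i)) (ob C o)) with hS1
      set S2 := ∑ j ∈ Finset.range (eE C i), (if kl C (Nj C i j) = 0 then
            val C (evn C (X i) (C.no + j)) (Nat.lor (Nat.lor (dc C (cc C i)) (ob C (eT C i)))
              (st C (Nj C i j))) else 0) with hS2
      have hw' : (C.ld : ℝ) * (wy C (eT C i) * S1 + (C.qa * C.qb) * S2) ≤
          (C.la + C.ld * (eE C i + 1)) * (C.qa * C.qb) * eP C i := by exact_mod_cast hw
      rw [← wo_wy hC hs.ty] at hw'
      change wo C.q (tyo n r C (eT C i)) * (S1 : ℝ) + S2 ≤ (C.lam + 1 + eE C i) * (eP C i : ℕ)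
      have hpp : (0 : ℝ) < C.ld * (C.qa * C.qb) := by positivity
      refine le_of_mul_le_mul_left ?_ hpp
      have e4 : (C.ld : ℝ) * (C.qa * C.qb) * ((C.lam + 1 + eE C i) * (eP C i : ℕ)) =
          (C.la + C.ld * (eE C i + 1)) * (C.qa * C.qb) * eP C i := by
        have : (C.ld : ℝ) * C.lam = C.la := by
          unfold PC.lam
          field_simp
        calc (C.ld : ℝ) * (C.qa * C.qb) * ((C.lam + 1 + eE C i) * (eP C i : ℕ))
            = (C.ld * C.lam + C.ld * (eE C i + 1)) * (C.qa * C.qb) * eP C i := by ring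
          _ = _ := by rw [this]
      rw [e4]
      calc (C.ld : ℝ) * (C.qa * C.qb) * (wo C.q (tyo n r C (eT C i)) * (S1 : ℝ) + S2)
          = C.ld * (wo C.q (tyo n r C (eT C i)) * (C.qa * C.qb) * S1 + C.qa * C.qb * S2) := by ring
        _ ≤ _ := hw'

/-- a checked table of option labels gives the functional -/
theorem hasPsi_of_chk (hC : POk n r l C) {R : ℕ → ℕ} (hroot : root C R = true)
    (hall : ∀ i < C.N, ∃ x, chk C i x = 0) : ∃ Ψ, HasPsi n C.q C.lam Ψ := by
  classical
  have h1 : ∀ i, ∃ x, i < C.N → chk C i x = 0 := by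
    intro i
    by_cases hi : i < C.N
    · obtain ⟨x, hx⟩ := hall i hi
      exact ⟨x, fun _ => hx⟩
    · exact ⟨0, fun h => absurd h hi⟩
  choose X hX using h1
  have h2 := cert_ok hC hroot fun i hi => lspec hC (hX i hi)
  have h3 : 0 < C.N := by
    have h4 : root1 C (ox (none : Op n)) (R (ox (none : Op n))) = true :=
      allN_spec hroot (ox_lt hC none_mem_ops)
    unfold root1 at h4
    rw [brec_iff, ble_iff] at h4
    have := h4.1
    omega
  have : Nonempty (Fin C.N) := ⟨⟨0, h3⟩⟩
  exact h2.hasPsi hC.r_pos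

/-! ### lists of events -/

lemma errC_spec {C : PC} {k i x : ℕ} (h : errC C k i x = 0) :
    ∀ j, i ≤ j → j < i + k → ∃ x', chk C j x' = 0 := by
  induction k generalizing i x with
  | zero =>
    intro j h1 h2
    omega
  | succ k ih =>
    have h1 : errC C (k + 1) i x = fc (fun L =>
      Nat.add (fc (fun y => chk C i y) (Nat.mod (Nat.shiftRight x 16) (Nat.pow 2 L)))
      (errC C k (Nat.succ i) (Nat.shiftRight x (Nat.add 16 L)))) (Nat.mod x 65536) := rfl
    rw [h1, fc_eq, fc_eq] at h
    have h2 : chk C i (Nat.mod (Nat.shiftRight x 16) (Nat.pow 2 (Nat.mod x 65536))) +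
      errC C k (Nat.succ i) (Nat.shiftRight x (Nat.add 16 (Nat.mod x 65536))) = 0 := h
    intro j h3 h4
    rcases Nat.eq_or_lt_of_le h3 with h5 | h5
    · subst h5
      exact ⟨_, (Nat.add_eq_zero_iff.1 h2).1⟩
    · exact ih (Nat.add_eq_zero_iff.1 h2).2 j h5 (by omega)

theorem errL_spec {C : PC} {E : ℕ} {l : List ℕ} {b : ℕ} (h : errL C E l b = 0) :
    ∀ j, b ≤ j → j < E → ∃ x', chk C j x' = 0 := by
  induction l generalizing b with
  | nil =>
    intro j h1 h2
    have h3 : (Bool.rec 1 0 (Nat.beq b E) : ℕ) = 0 := h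
    have h4 : b = E := by
      rw [← beq_iff]
      cases hb : Nat.beq b E with
      | false => rw [hb] at h3; exact absurd h3 (by simp)
      | true => rfl
    omega
  | cons x l ih =>
    have h1 : errL C E (x :: l) b = fc (fun i => Nat.add (errC C (Nat.mod x 256) i
      (Nat.shiftRight x 8)) (errL C E l (Nat.add i (Nat.mod x 256)))) b := rfl
    rw [h1, fc_eq] at h
    have h2 := Nat.add_eq_zero_iff.1 (show errC C (Nat.mod x 256) b (Nat.shiftRight x 8) +
      errL C E l (Nat.add b (Nat.mod x 256)) = 0 from h)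
    intro j h3 h4
    rcases Nat.lt_or_ge j (b + x % 256) with h5 | h5
    · exact errC_spec h2.1 j h3 h5
    · exact ih h2.2 j h5 h4

end Pool.Agent.Lib.MP_67d80e_pr_opt
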