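import Pool.Agent.Lib.MP_67d80e_pr_opt.Sym
import Pool.Agent.Lib.MP_67d80e_pr_lab.Cons

/-!
The boolean check of a table of option labels.
-/

set_option autoImplicit false

open scoped BigOperators
open Pool.Agent.Lib.MP_67d80e_pr Pool.Agent.Lib.MP_67d80e_pr_all Pool.Agent.Lib.MP_67d80e_pr_lab

namespace Pool.Agent.Lib.MP_67d80e_pr_opt

/-- `x` if `b` is zero, else `y` -/
def sl {α : Type} (b : ℕ) (x y : α) : α := Nat.rec x (fun _ _ => y) b

lemma sl_eq {α : Type} (b : ℕ) (x y : α) : sl b x y = if b = 0 then x else y := by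
  cases b <;> rfl

/-- the constants and the entries of a table -/
structure PC where
  /-- number of positions -/
  P : ℕ
  /-- centre of the star patterns -/
  M : ℕ
  /-- position of the origin -/
  O : ℕ
  /-- number of options -/
  no : ℕ
  /-- the first free bit -/
  F : ℕ
  /-- `2 ^ F` -/
  F2 : ℕ
  /-- star patterns -/
  rp : ℕ → ℕ
  /-- mask of the allowed bits -/
  mIn : ℕ
  /-- mask of the bits whose ring creates the centre anew -/
  mKill : ℕ
  /-- positions of the options -/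
  dt : ℕ → ℕ
  /-- symmetries acting on positions -/
  sg : ℕ → ℕ → ℕ
  /-- numerator of `q` -/
  qa : ℕ
  /-- denominator of `q` -/
  qb : ℕ
  /-- numerator of the rate -/
  la : ℕ
  /-- denominator of the rate -/
  ld : ℕ
  /-- a big number -/
  big : ℕ
  /-- width of a site -/
  nb : ℕ
  /-- `2 ^ nb` -/
  nm : ℕ
  /-- width of an event -/
  ew : ℕ
  /-- `2 ^ ew` -/
  em : ℕ
  /-- number of labels -/
  N : ℕ
  /-- entries: number of sites (8 bits), of followed sites (8), option (8), weight (40), sites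
  (`nb` each, the followed ones first) -/
  V : ℕ → ℕ

variable (C : PC)

/-- number of sites -/
def eM (i : ℕ) : ℕ := Nat.mod (C.V i) 256
/-- number of followed sites -/
def eE (i : ℕ) : ℕ := Nat.mod (Nat.shiftRight (C.V i) 8) 256
/-- option -/
def eT (i : ℕ) : ℕ := Nat.mod (Nat.shiftRight (C.V i) 16) 256
/-- weight -/
def eP (i : ℕ) : ℕ := Nat.mod (Nat.shiftRight (C.V i) 24) 1099511627776
/-- sites -/
def eS (i : ℕ) : ℕ := Nat.shiftRight (C.V i) 64

/-- the bit of a site in a frame -/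
def sb (h N : ℕ) : ℕ :=
  Nat.shiftLeft 1 (Nat.add (C.sg h (Nat.mod N C.P)) (Nat.mul C.P (Nat.div N C.P)))

/-- the code of the first `m` sites of the stream in a frame -/
def cdl (h m : ℕ) : ℕ → ℕ :=
  Nat.rec (fun _ => 0) (fun _ ih s =>
    Nat.lor (fc (fun N => sb C h N) (Nat.mod s C.nm)) (ih (Nat.shiftRight s C.nb))) m

/-- the code of the first `m` sites of the stream -/
def cd0 (m : ℕ) : ℕ → ℕ :=
  Nat.rec (fun _ => 0) (fun _ ih s =>
    Nat.lor (Nat.shiftLeft 1 (Nat.mod s C.nm)) (ih (Nat.shiftRight s C.nb))) m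

/-- the code of a target, with the bit of its option -/
def tc (t h : ℕ) : ℕ :=
  Nat.lor (cdl C h (eM C t) (eS C t)) (Nat.shiftLeft 1 (Nat.add C.F (C.sg h (C.dt (eT C t)))))

/-- the code of an event -/
def tce (e : ℕ) : ℕ :=
  fc (fun t => fc (fun h => tc C t h) (Nat.shiftRight e 20)) (Nat.mod e 1048576)

/-- the weight of an event -/
def phe (e : ℕ) : ℕ :=
  fc (fun t => Bool.rec C.big (eP C t) (Nat.ble (Nat.succ t) C.N)) (Nat.mod e 1048576)

/-- the value of an event -/
def val (e img : ℕ) : ℕ :=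
  Bool.rec C.big (phe C e) (Nat.beq (Nat.land (tce C e) img) (tce C e))

/-- the star of a site -/
def st (N : ℕ) : ℕ :=
  Nat.mod (Nat.shiftLeft (C.rp (Nat.div N C.P)) (Nat.sub (Nat.mod N C.P) C.M)) C.F2

/-- the ring creates the centre anew -/
def kl (N : ℕ) : ℕ := Nat.mod (Nat.shiftRight C.mKill N) 2

/-- the bit of an option -/
def ob (o : ℕ) : ℕ := Nat.shiftLeft 1 (Nat.add C.F (C.dt o))

/-- the closure of a code, first step -/
def dc1 (c : ℕ) : ℕ := Nat.lor c (Nat.shiftRight c C.P)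

/-- the closure of a code, second step -/
def dc2 (c : ℕ) : ℕ := Nat.lor (dc1 C c) (Nat.shiftRight (dc1 C c) (Nat.mul 2 C.P))

/-- the closure of a code -/
def dc (c : ℕ) : ℕ := Nat.lor (dc2 C c) (Nat.shiftRight (dc2 C c) (Nat.mul 4 C.P))

/-- the code seen from the position `f` -/
def shc (c f : ℕ) : ℕ :=
  Bool.rec (Nat.shiftLeft c (Nat.sub C.O f)) (Nat.shiftRight c (Nat.sub f C.O)) (Nat.ble C.O f)

/-- the image after the main event of the option `y` -/
def imM (D y : ℕ) : ℕ :=
  Nat.mod (Nat.rec (Nat.lor (Nat.shiftRight D C.P) (Nat.shiftLeft (C.rp 0) (Nat.sub C.O C.M)))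
    (fun s _ => Nat.lor (shc C D (C.dt (Nat.succ s)))
      (Nat.shiftLeft (C.rp 1) (Nat.sub (Nat.sub (Nat.mul 2 C.O) (C.dt (Nat.succ s))) C.M))) y) C.F2

/-- the sum over the next options from `o` on -/
def sM (I k : ℕ) : ℕ → ℕ → ℕ :=
  Nat.rec (fun _ _ => 0) (fun _ ih o x => Nat.add
    (fc (fun e => val C e (Nat.lor I (ob C o))) (Nat.mod x C.em))
    (ih (Nat.succ o) (Nat.shiftRight x C.ew))) k

/-- the value of the ring at a site -/
def itm (I N x : ℕ) : ℕ :=
  sl (kl C N) (fc (fun e => val C e (Nat.lor I (st C N))) (Nat.mod x C.em)) 0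

/-- the sum over the sites (which are at least `p` and increasing) -/
def sI (I k : ℕ) : ℕ → ℕ → ℕ → ℕ :=
  Nat.rec (fun _ _ _ => 0) (fun _ ih p s x => fc (fun N =>
    Bool.rec C.big (Nat.add (itm C I N x)
      (ih (Nat.succ N) (Nat.shiftRight s C.nb) (Nat.shiftRight x C.ew))) (Nat.ble p N))
    (Nat.mod s C.nm)) k

/-- the weight of an option -/
def wy (y : ℕ) : ℕ :=
  Bool.rec (Bool.rec (Nat.mul C.qa C.qb) (Nat.mul C.qb C.qb) (Nat.beq y 2)) (Nat.mul C.qa C.qa)
    (Nat.ble y 1)

/-- the conditions of a label: `c` code, `D` closed code -/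
def chk2 (i y c D x : ℕ) : Bool :=
  Bool.rec false
    (Bool.rec false
      (Bool.rec false
        (Nat.ble (Nat.mul C.ld (Nat.add (Nat.mul (wy C y) (sM C (imM C D y) C.no 0 x))
          (Nat.mul (Nat.mul C.qa C.qb) (sI C (Nat.lor D (ob C y)) (eE C i) 0 (eS C i)
            (Nat.shiftRight x (Nat.mul C.ew C.no))))))
          (Nat.mul (Nat.mul (Nat.add C.la (Nat.mul C.ld (Nat.succ (eE C i)))) (Nat.mul C.qa C.qb))
            (eP C i)))
        (Nat.ble (eE C i) (eM C i)))
      (Nat.beq (Nat.land c (Nat.shiftRight D C.P)) 0))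
    (Nat.ble (Nat.succ y) C.no)

/-- a label of weight zero: its option is impossible -/
def chk0 (y D : ℕ) : Bool :=
  Bool.rec false (Bool.rec false (Nat.ble (Nat.succ y) C.no) (Nat.ble 1 y))
    (Nat.beq (Nat.mod (Nat.shiftRight D (Nat.add C.P (C.dt y))) 2) 1)

/-- the check of a label, `c` code -/
def chk1 (i y c x : ℕ) : Bool :=
  Bool.rec false (Nat.rec (chk0 C y (dc C c)) (fun _ _ => chk2 C i y c (dc C c) x) (eP C i))
    (Nat.beq (Nat.land c C.mIn) c)

/-- the event `e` gives a label without sites for the option `o` -/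
def root1 (o e : ℕ) : Bool :=
  Bool.rec false (Bool.rec false (Nat.beq (C.sg (Nat.shiftRight e 20)
    (C.dt (eT C (Nat.mod e 1048576)))) (C.dt o)) (Nat.beq (eM C (Nat.mod e 1048576)) 0))
    (Nat.ble (Nat.succ (Nat.mod e 1048576)) C.N)

/-- the labels without sites, `R` events -/
def root (R : ℕ → ℕ) : Bool := allN C.no (fun o => root1 C o (R o))

/-- the number of errors of the label `i` with the events `x` -/
def chk (i x : ℕ) : ℕ :=
  Bool.rec 1 0 (fc (fun y => chk1 C i y (cd0 C (eM C i) (eS C i)) x) (eT C i))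

/-- the errors of `k` labels from `i` on, in the stream `x` (16 bit lengths, events) -/
def errC (k : ℕ) : ℕ → ℕ → ℕ :=
  Nat.rec (fun _ _ => 0) (fun _ ih i x => fc (fun L =>
    Nat.add (fc (fun y => chk C i y) (Nat.mod (Nat.shiftRight x 16) (Nat.pow 2 L)))
      (ih (Nat.succ i) (Nat.shiftRight x (Nat.add 16 L)))) (Nat.mod x 65536)) k

/-- the errors of the labels from `i` to `E`, in a list of chunks (8 bit number of labels, stream) -/
def errL (E : ℕ) (l : List ℕ) : ℕ → ℕ :=
  List.rec (fun i => Bool.rec 1 0 (Nat.beq i E)) (fun x _ ih i => fc (fun i =>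
    Nat.add (errC C (Nat.mod x 256) i (Nat.shiftRight x 8)) (ih (Nat.add i (Nat.mod x 256)))) i) l

end Pool.Agent.Lib.MP_67d80e_pr_opt
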