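import Pool.Agent.Lib.MP_67d80e_pr_opt.Chk

/-!
Soundness of the boolean check of a table of option labels.
-/

set_option autoImplicit false

open scoped BigOperators
open Pool.Agent.Lib.MP_67d80e_pr Pool.Agent.Lib.MP_67d80e_pr_all Pool.Agent.Lib.MP_67d80e_pr_lab

namespace Pool.Agent.Lib.MP_67d80e_pr_opt

variable {n r l : ℕ}

/-- the conditions on the constants: dimension `n + 1`, radius `r`, `l` levels -/
structure POk (n r l : ℕ) (C : PC) : Prop where
  r_pos : 1 ≤ r
  l_ge : 2 ≤ l
  l_le : l ≤ 8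
  P_eq : C.P = Pn n r
  O_eq : C.O = ofs n r
  no_eq : C.no = 2 * (n + 1) + 1
  F_eq : C.F = Pn n r * l
  F2_eq : C.F2 = 2 ^ (Pn n r * l)
  M_le : ∀ y : Site (n + 1), InB r y → C.M ≤ pc r y
  rp_ok : ∀ k < l, StarBits n r C.M k (C.rp k)
  mIn_ok : ∀ N, C.mIn.testBit N = true → ∃ (y : Site (n + 1)) (k : ℕ), InB r y ∧ y ≠ 0 ∧ k < l ∧
    N = pc r y + Pn n r * k
  mKill_ok : ∀ (y : Site (n + 1)) (k : ℕ), InB r y → k < l →
    C.mKill.testBit (pc r y + Pn n r * k) = true → y ∈ nbrs (0 : Site (n + 1)) ∧ 2 ≤ k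
  dt_zero : C.dt 0 = ofs n r
  dt_ok : ∀ i : Fin (n + 1), C.dt (2 * i + 1) = pc r (e i : Site (n + 1)) ∧
    C.dt (2 * i + 1 + 1) = pc r (-e i : Site (n + 1))
  sg_ok : ∀ h, ∃ g : GG n, ∀ y, InB r y → InB r (g.f y) ∧ C.sg h (pc r y) = pc r (g.f y)
  qb_pos : 0 < C.qb
  qa_ge : C.qb ≤ C.qa
  ld_pos : 0 < C.ld
  big_ok : (C.la + C.ld * 256) * (C.qa * C.qb) * 1099511627776 ≤ C.big

/-- the number `q` -/
noncomputable def PC.q (C : PC) : ℝ := C.qa / C.qb

/-- the rate -/
noncomputable def PC.lam (C : PC) : ℝ := C.la / C.ld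

/-! ### streams -/

/-- the site `j` of a stream -/
def sN (C : PC) (s j : ℕ) : ℕ := (s >>> (C.nb * j)) % C.nm

/-- the event `j` of a stream -/
def evn (C : PC) (x j : ℕ) : ℕ := (x >>> (C.ew * j)) % C.em

lemma shiftRight_step (s a j : ℕ) : (s >>> a) >>> (a * j) = s >>> (a * (j + 1)) := by
  rw [← Nat.shiftRight_add]
  congr 1
  ring

lemma sN_succ (C : PC) (s j : ℕ) : sN C (s >>> C.nb) j = sN C s (j + 1) := by
  unfold sN
  rw [shiftRight_step]

lemma evn_succ (C : PC) (x j : ℕ) : evn C (x >>> C.ew) j = evn C x (j + 1) := by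
  unfold evn
  rw [shiftRight_step]

lemma sN_zero (C : PC) (s : ℕ) : sN C s 0 = s % C.nm := rfl

lemma evn_zero (C : PC) (x : ℕ) : evn C x 0 = x % C.em := rfl

lemma testBit_one_shl (a N : ℕ) : (Nat.shiftLeft 1 a).testBit N = true ↔ N = a := by
  change (1 <<< a).testBit N = true ↔ _
  rw [Nat.one_shiftLeft, Nat.testBit_two_pow, decide_eq_true_eq]
  exact eq_comm

lemma testBit_lor (a b N : ℕ) : (Nat.lor a b).testBit N = true ↔
    a.testBit N = true ∨ b.testBit N = true := by
  change (a ||| b).testBit N = true ↔ _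
  rw [Nat.testBit_or, Bool.or_eq_true]

lemma testBit_cdl {C : PC} {h m s N : ℕ} : (cdl C h m s).testBit N = true ↔
    ∃ j < m, N = C.sg h (sN C s j % C.P) + C.P * (sN C s j / C.P) := by
  induction m generalizing s with
  | zero =>
    change (0 : ℕ).testBit N = true ↔ _
    simp
  | succ m ih =>
    change (Nat.lor (fc (fun N => sb C h N) (Nat.mod s C.nm))
      (cdl C h m (Nat.shiftRight s C.nb))).testBit N = true ↔ _
    rw [testBit_lor, fc_eq, ih]
    unfold sb
    rw [testBit_one_shl]
    constructor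
    · rintro (h1 | ⟨j, h1, h2⟩)
      · exact ⟨0, Nat.succ_pos m, h1⟩
      · refine ⟨j + 1, Nat.succ_lt_succ h1, ?_⟩
        rw [← sN_succ]
        exact h2
    · rintro ⟨j, h1, h2⟩
      cases j with
      | zero => exact Or.inl h2
      | succ j =>
        refine Or.inr ⟨j, Nat.lt_of_succ_lt_succ h1, ?_⟩
        rw [← sN_succ] at h2
        exact h2

lemma testBit_cd0 {C : PC} {m s N : ℕ} : (cd0 C m s).testBit N = true ↔
    ∃ j < m, N = sN C s j := by
  induction m generalizing s with
  | zero =>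
    change (0 : ℕ).testBit N = true ↔ _
    simp
  | succ m ih =>
    change (Nat.lor (Nat.shiftLeft 1 (Nat.mod s C.nm))
      (cd0 C m (Nat.shiftRight s C.nb))).testBit N = true ↔ _
    rw [testBit_lor, testBit_one_shl, ih]
    constructor
    · rintro (h1 | ⟨j, h1, h2⟩)
      · exact ⟨0, Nat.succ_pos m, h1⟩
      · refine ⟨j + 1, Nat.succ_lt_succ h1, ?_⟩
        rw [← sN_succ]
        exact h2
    · rintro ⟨j, h1, h2⟩
      cases j with
      | zero => exact Or.inl h2
      | succ j =>
        refine Or.inr ⟨j, Nat.lt_of_succ_lt_succ h1, ?_⟩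
        rw [← sN_succ] at h2
        exact h2

lemma testBit_dc {C : PC} {c N : ℕ} : (dc C c).testBit N = true ↔
    ∃ j < 8, c.testBit (N + C.P * j) = true := by
  have h1 : ∀ a b N : ℕ, (Nat.shiftRight a b).testBit N = a.testBit (N + b) := by
    intro a b N
    change (a >>> b).testBit N = _
    rw [Nat.testBit_shiftRight, Nat.add_comm]
  have e1 : ∀ N, (dc1 C c).testBit N = true ↔ ∃ j < 2, c.testBit (N + C.P * j) = true := by
    intro N
    unfold dc1
    rw [testBit_lor, h1]
    constructor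
    · rintro (h | h)
      · exact ⟨0, by norm_num, by rwa [mul_zero, add_zero]⟩
      · exact ⟨1, by norm_num, by rwa [mul_one]⟩
    · rintro ⟨j, hj, h⟩
      interval_cases j
      · rw [mul_zero, add_zero] at h
        exact Or.inl h
      · rw [mul_one] at h
        exact Or.inr h
  have e2 : ∀ N, (dc2 C c).testBit N = true ↔ ∃ j < 4, c.testBit (N + C.P * j) = true := by
    intro N
    unfold dc2
    rw [testBit_lor, h1, e1, e1]
    have h2 : Nat.mul 2 C.P = 2 * C.P := rfl
    rw [h2]
    constructor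
    · rintro (⟨j, hj, h⟩ | ⟨j, hj, h⟩)
      · exact ⟨j, by omega, h⟩
      · refine ⟨j + 2, by omega, ?_⟩
        rwa [show N + C.P * (j + 2) = N + 2 * C.P + C.P * j by ring]
    · rintro ⟨j, hj, h⟩
      rcases Nat.lt_or_ge j 2 with h3 | h3
      · exact Or.inl ⟨j, h3, h⟩
      · refine Or.inr ⟨j - 2, by omega, ?_⟩
        obtain ⟨k, rfl⟩ := Nat.exists_eq_add_of_le h3
        rw [show N + C.P * (2 + k) = N + 2 * C.P + C.P * k by ring] at h
        rwa [show 2 + k - 2 = k by omega]
  unfold dc
  rw [testBit_lor, h1, e2, e2]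
  have h2 : Nat.mul 4 C.P = 4 * C.P := rfl
  rw [h2]
  constructor
  · rintro (⟨j, hj, h⟩ | ⟨j, hj, h⟩)
    · exact ⟨j, by omega, h⟩
    · refine ⟨j + 4, by omega, ?_⟩
      rwa [show N + C.P * (j + 4) = N + 4 * C.P + C.P * j by ring]
  · rintro ⟨j, hj, h⟩
    rcases Nat.lt_or_ge j 4 with h3 | h3
    · exact Or.inl ⟨j, h3, h⟩
    · refine Or.inr ⟨j - 4, by omega, ?_⟩
      obtain ⟨k, rfl⟩ := Nat.exists_eq_add_of_le h3
      rw [show N + C.P * (4 + k) = N + 4 * C.P + C.P * k by ring] at h
      rwa [show 4 + k - 4 = k by omega]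

lemma sM_eq (C : PC) (I k o x : ℕ) : sM C I k o x =
    ∑ j ∈ Finset.range k, val C (evn C x j) (Nat.lor I (ob C (o + j))) := by
  induction k generalizing o x with
  | zero => rfl
  | succ k ih =>
    change fc (fun e => val C e (Nat.lor I (ob C o))) (Nat.mod x C.em) +
      sM C I k (Nat.succ o) (Nat.shiftRight x C.ew) = _
    rw [fc_eq, ih, Finset.sum_range_succ', add_comm]
    congr 1
    refine Finset.sum_congr rfl fun j _ => ?_
    have h1 : evn C (Nat.shiftRight x C.ew) j = evn C x (j + 1) := evn_succ C x j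
    rw [h1, show Nat.succ o + j = o + (j + 1) by omega]

lemma sI_spec {C : PC} {I k p s x : ℕ} (h : sI C I k p s x < C.big) :
    (∀ j < k, p ≤ sN C s j) ∧ (∀ j, j + 1 < k → sN C s j < sN C s (j + 1)) ∧
      sI C I k p s x = ∑ j ∈ Finset.range k, itm C I (sN C s j) (x >>> (C.ew * j)) := by
  induction k generalizing p s x with
  | zero =>
    refine ⟨fun j hj => absurd hj (Nat.not_lt_zero j), fun j hj => absurd hj (Nat.not_lt_zero _),
      rfl⟩
  | succ k ih =>
    have h1 : sI C I (k + 1) p s x = Bool.rec C.big (Nat.add (itm C I (s % C.nm) x)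
        (sI C I k (Nat.succ (s % C.nm)) (Nat.shiftRight s C.nb) (Nat.shiftRight x C.ew)))
        (Nat.ble p (s % C.nm)) := by
      exact fc_eq (fun N => (Bool.rec C.big (Nat.add (itm C I N x)
        (sI C I k (Nat.succ N) (Nat.shiftRight s C.nb) (Nat.shiftRight x C.ew)))
        (Nat.ble p N) : ℕ)) (Nat.mod s C.nm)
    rw [h1] at h ⊢
    cases hb : Nat.ble p (s % C.nm) with
    | false =>
      rw [hb] at h
      exact absurd h (lt_irrefl _)
    | true =>
      rw [hb] at h
      have hb' : p ≤ s % C.nm := ble_iff.1 hb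
      change itm C I (s % C.nm) x + sI C I k (Nat.succ (s % C.nm)) (s >>> C.nb) (x >>> C.ew) <
        C.big at h
      obtain ⟨h2, h3, h4⟩ := ih (p := Nat.succ (s % C.nm)) (s := s >>> C.nb) (x := x >>> C.ew)
        (by omega)
      refine ⟨fun j hj => ?_, fun j hj => ?_, ?_⟩
      · cases j with
        | zero => exact hb'
        | succ j =>
          have := h2 j (by omega)
          rw [sN_succ] at this
          omega
      · cases j with
        | zero =>
          have := h2 0 (by omega)
          rw [sN_succ] at this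
          rw [sN_zero]
          omega
        | succ j =>
          have := h3 j (by omega)
          rwa [sN_succ, sN_succ] at this
      · change itm C I (s % C.nm) x + sI C I k (Nat.succ (s % C.nm)) (s >>> C.nb) (x >>> C.ew) = _
        rw [h4, Finset.sum_range_succ', add_comm]
        congr 1
        refine Finset.sum_congr rfl fun j _ => ?_
        rw [sN_succ, shiftRight_step]

/-- what an event says -/
lemma val_spec {C : PC} {e img : ℕ} (h : val C e img < C.big) :
    e % 1048576 < C.N ∧ val C e img = eP C (e % 1048576) ∧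
      Nat.land (tc C (e % 1048576) (e >>> 20)) img = tc C (e % 1048576) (e >>> 20) := by
  have h1 : tce C e = tc C (e % 1048576) (e >>> 20) := by
    unfold tce
    rw [fc_eq, fc_eq]
    rfl
  have h2 : phe C e = Bool.rec C.big (eP C (e % 1048576))
      (Nat.ble (Nat.succ (e % 1048576)) C.N) := by
    unfold phe
    rw [fc_eq]
    rfl
  unfold val at h ⊢
  rw [h1] at h ⊢
  rw [h2] at h ⊢
  cases hb : Nat.beq (Nat.land (tc C (e % 1048576) (e >>> 20)) img)
      (tc C (e % 1048576) (e >>> 20)) with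
  | false =>
    rw [hb] at h
    exact absurd h (lt_irrefl _)
  | true =>
    rw [hb] at h
    cases hn : Nat.ble (Nat.succ (e % 1048576)) C.N with
    | false =>
      rw [hn] at h
      exact absurd h (lt_irrefl _)
    | true => exact ⟨ble_iff.1 hn, rfl, beq_iff.1 hb⟩

lemma itm_eq (C : PC) (I N x : ℕ) : itm C I N x =
    if kl C N = 0 then val C (x % C.em) (Nat.lor I (st C N)) else 0 := by
  unfold itm
  rw [sl_eq, fc_eq]
  rfl

/-! ### what the check of a label says -/

/-- the code of a label -/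
def cc (C : PC) (i : ℕ) : ℕ := cd0 C (eM C i) (eS C i)

/-- the site `j` of the label `i` -/
def Nj (C : PC) (i j : ℕ) : ℕ := sN C (eS C i) j

/-- the conditions of a label with a weight -/
structure Main (C : PC) (i x : ℕ) : Prop where
  pos : 1 ≤ eP C i
  le : eE C i ≤ eM C i
  disj : ∀ N, (cc C i).testBit N = true → (dc C (cc C i)).testBit (N + C.P) = false
  inc : ∀ j, j + 1 < eE C i → Nj C i j < Nj C i (j + 1)
  main : ∀ o < C.no, val C (evn C x o) (Nat.lor (imM C (dc C (cc C i)) (eT C i)) (ob C o)) < C.big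
  ring : ∀ j < eE C i, kl C (Nj C i j) = 0 →
    val C (evn C x (C.no + j)) (Nat.lor (Nat.lor (dc C (cc C i)) (ob C (eT C i)))
      (st C (Nj C i j))) < C.big
  w : C.ld * (wy C (eT C i) * ∑ o ∈ Finset.range C.no,
      val C (evn C x o) (Nat.lor (imM C (dc C (cc C i)) (eT C i)) (ob C o)) +
      (C.qa * C.qb) * ∑ j ∈ Finset.range (eE C i), (if kl C (Nj C i j) = 0 then
        val C (evn C x (C.no + j)) (Nat.lor (Nat.lor (dc C (cc C i)) (ob C (eT C i)))
          (st C (Nj C i j))) else 0)) ≤
    (C.la + C.ld * (eE C i + 1)) * (C.qa * C.qb) * eP C i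

/-- the conditions of a label -/
structure LSpec (C : PC) (i x : ℕ) : Prop where
  msk : ∀ N, (cc C i).testBit N = true → C.mIn.testBit N = true
  ty : eT C i < C.no
  or : (eP C i = 0 ∧ 1 ≤ eT C i ∧ (dc C (cc C i)).testBit (C.P + C.dt (eT C i)) = true) ∨
    Main C i x

lemma brec_iff {a b : Bool} : (Bool.rec false a b : Bool) = true ↔ b = true ∧ a = true := by
  cases b <;> simp

lemma eE_lt (C : PC) (i : ℕ) : eE C i < 256 := Nat.mod_lt _ (by norm_num)

lemma eP_lt (C : PC) (i : ℕ) : eP C i < 1099511627776 := Nat.mod_lt _ (by norm_num)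

lemma testBit_of_land_eq' {c m N : ℕ} (h : Nat.land c m = c) (hN : c.testBit N = true) :
    m.testBit N = true := testBit_of_land_eq h hN

theorem lspec {C : PC} (hC : POk n r l C) {i x : ℕ} (h : chk C i x = 0) : LSpec C i x := by
  have h0 : chk1 C i (eT C i) (cc C i) x = true := by
    unfold chk at h
    rw [fc_eq] at h
    cases hb : chk1 C i (eT C i) (cd0 C (eM C i) (eS C i)) x with
    | false =>
      rw [hb] at h
      exact absurd h (by simp)
    | true => exact hb
  unfold chk1 at h0
  rw [brec_iff] at h0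
  obtain ⟨h1, h2⟩ := h0
  rw [beq_iff] at h1
  have hm : ∀ N, (cc C i).testBit N = true → C.mIn.testBit N = true := fun N hN =>
    testBit_of_land_eq' h1 hN
  cases hp : eP C i with
  | zero =>
    rw [hp] at h2
    change chk0 C (eT C i) (dc C (cc C i)) = true at h2
    unfold chk0 at h2
    rw [brec_iff, brec_iff, beq_iff, ble_iff, ble_iff] at h2
    obtain ⟨h3, h4, h5⟩ := h2
    refine ⟨hm, h5, Or.inl ⟨hp, h4, ?_⟩⟩
    have h6 := bt_eq (dc C (cc C i)) (Nat.add C.P (C.dt (eT C i)))
    unfold bt at h6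
    change _ = (dc C (cc C i)).testBit (C.P + C.dt (eT C i)) at h6
    rw [← h6, beq_iff]
    exact h3
  | succ φ =>
    rw [hp] at h2
    change chk2 C i (eT C i) (cc C i) (dc C (cc C i)) x = true at h2
    unfold chk2 at h2
    rw [brec_iff, brec_iff, brec_iff, ble_iff, beq_iff, ble_iff, ble_iff] at h2
    obtain ⟨h3, h4, hle, h5⟩ := h2
    refine ⟨hm, h3, Or.inr ?_⟩
    set D := dc C (cc C i) with hD
    set SM := sM C (imM C D (eT C i)) C.no 0 x with hSM
    set SI := sI C (Nat.lor D (ob C (eT C i))) (eE C i) 0 (eS C i)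
      (Nat.shiftRight x (Nat.mul C.ew C.no)) with hSI
    change C.ld * (wy C (eT C i) * SM + (C.qa * C.qb) * SI) ≤
      (C.la + C.ld * (eE C i + 1)) * (C.qa * C.qb) * eP C i at h5
    have hqb := hC.qb_pos
    have hqa : 0 < C.qa := lt_of_lt_of_le hqb hC.qa_ge
    have hqq : 0 < C.qa * C.qb := Nat.mul_pos hqa hqb
    have hwy : 0 < wy C (eT C i) := by
      unfold wy
      cases Nat.ble (eT C i) 1 with
      | true => exact Nat.mul_pos hqa hqa
      | false =>
        cases Nat.beq (eT C i) 2 with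
        | true => exact Nat.mul_pos hqb hqb
        | false => exact Nat.mul_pos hqa hqb
    have hR : (C.la + C.ld * (eE C i + 1)) * (C.qa * C.qb) * eP C i < C.big := by
      refine lt_of_lt_of_le ?_ hC.big_ok
      have e1 := eE_lt C i
      have e2 := eP_lt C i
      have hpos : 0 < (C.la + C.ld * 256) * (C.qa * C.qb) :=
        Nat.mul_pos (by have := hC.ld_pos; omega) hqq
      calc (C.la + C.ld * (eE C i + 1)) * (C.qa * C.qb) * eP C i
          ≤ (C.la + C.ld * 256) * (C.qa * C.qb) * eP C i := by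
            gcongr
            omega
        _ < (C.la + C.ld * 256) * (C.qa * C.qb) * 1099511627776 :=
            Nat.mul_lt_mul_of_pos_left e2 hpos
    have hL : wy C (eT C i) * SM + (C.qa * C.qb) * SI < C.big := by
      have := hC.ld_pos
      have h6 : wy C (eT C i) * SM + (C.qa * C.qb) * SI ≤
          C.ld * (wy C (eT C i) * SM + (C.qa * C.qb) * SI) := Nat.le_mul_of_pos_left _ this
      omega
    have hSMlt : SM < C.big := by
      have : SM ≤ wy C (eT C i) * SM := Nat.le_mul_of_pos_left _ hwy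
      omega
    have hSIlt : SI < C.big := by
      have : SI ≤ (C.qa * C.qb) * SI := Nat.le_mul_of_pos_left _ hqq
      omega
    have hSM2 := sM_eq C (imM C D (eT C i)) C.no 0 x
    rw [← hSM] at hSM2
    simp only [zero_add] at hSM2
    obtain ⟨k1, k2, k3⟩ := sI_spec hSIlt
    rw [← hSI] at k3
    have hev : ∀ j, ((Nat.shiftRight x (Nat.mul C.ew C.no)) >>> (C.ew * j)) % C.em =
        evn C x (C.no + j) := by
      intro j
      unfold evn
      change ((x >>> (C.ew * C.no)) >>> (C.ew * j)) % C.em = _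
      rw [← Nat.shiftRight_add, ← mul_add]
    have k4 : SI = ∑ j ∈ Finset.range (eE C i), (if kl C (Nj C i j) = 0 then
        val C (evn C x (C.no + j)) (Nat.lor (Nat.lor D (ob C (eT C i))) (st C (Nj C i j))) else 0) := by
      rw [k3]
      refine Finset.sum_congr rfl fun j _ => ?_
      rw [itm_eq, hev]
      rfl
    refine ⟨by omega, hle, fun N hN => ?_, k2, fun o ho => ?_, fun j hj hk => ?_, ?_⟩
    · have h6 : ((cc C i) &&& (D >>> C.P)).testBit N = false := by
        have : (cc C i) &&& (D >>> C.P) = 0 := h4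
        rw [this]
        exact Nat.zero_testBit N
      rw [Nat.testBit_and, hN, Bool.true_and, Nat.testBit_shiftRight] at h6
      rw [Nat.add_comm]
      exact h6
    · refine lt_of_le_of_lt ?_ hSMlt
      rw [hSM2]
      exact Finset.single_le_sum (f := fun o => val C (evn C x o)
        (Nat.lor (imM C D (eT C i)) (ob C o))) (fun _ _ => Nat.zero_le _) (Finset.mem_range.2 ho)
    · refine lt_of_le_of_lt ?_ hSIlt
      rw [k4]
      refine le_trans ?_ (Finset.single_le_sum (f := fun j => if kl C (Nj C i j) = 0 then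
        val C (evn C x (C.no + j)) (Nat.lor (Nat.lor D (ob C (eT C i))) (st C (Nj C i j))) else 0)
        (fun _ _ => Nat.zero_le _) (Finset.mem_range.2 hj))
      rw [if_pos hk]
    · rw [← hSM2, ← k4]
      exact h5

end Pool.Agent.Lib.MP_67d80e_pr_opt
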