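import Pool.Agent.Lib.MP_67d80e_pr_opt.Cert
import Pool.Agent.Lib.MP_67d80e_pr_lab.Fmt

/-!
The constants and the format of the tables of option labels.
-/

set_option autoImplicit false

open scoped BigOperators
open Pool.Agent.Lib.MP_67d80e_pr Pool.Agent.Lib.MP_67d80e_pr_all Pool.Agent.Lib.MP_67d80e_pr_lab

namespace Pool.Agent.Lib.MP_67d80e_pr_opt

variable {n r l : ℕ}

/-- the leaf of index `n` -/
noncomputable def gt (t : Tr) : ℕ → ℕ :=
  Tr.rec (motive := fun _ => ℕ → ℕ) (fun v _ => v)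
    (fun _ _ ga gb n => Nat.rec (ga (Nat.div n 2)) (fun _ _ => gb (Nat.div n 2)) (Nat.mod n 2)) t

/-- an array of chunks of 32 entries of `s` bits, `s2 = 2 ^ s` -/
noncomputable def getV (t : Tr) (s s2 i : ℕ) : ℕ :=
  fc (fun c => Nat.mod (Nat.shiftRight (gt t c) (Nat.mul s (Nat.mod i 32))) s2) (Nat.div i 32)

/-- a table of numbers of 16 bits -/
def t16 (v p : ℕ) : ℕ := Nat.mod (Nat.shiftRight v (Nat.mul 16 p)) 65536

/-! ### the mask of the allowed bits -/

/-- one column of the mask -/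
def inC1 (B P O m l X p : ℕ) : Bool :=
  cond (and (innF B P m p) (not (Nat.beq p O))) (bt X p)
    (Nat.beq (Nat.land X (Nat.shiftLeft (patF P (Nat.pred l)) p)) 0)

/-- the mask of the allowed bits -/
def inC (B P M O m l X : ℕ) : Bool :=
  and (Nat.ble (Nat.succ X) (Nat.pow 2 (Nat.mul P l)))
    (allN B (fun a => allN M (fun b => inC1 B P O m l X (Nat.add (Nat.mul M a) b))))

lemma innF_pc {y : Site (n + 1)} (hy : InB r y) :
    innF (Bs r) (Pn n r) (n + 1) (pc r y) = true := by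
  have hy1 := hy.mono (Nat.le_succ r)
  have key : ∀ (m : ℕ) (f : ℕ → Bool), (∀ k < m, f k = true) → allN m f = true := by
    intro m f
    induction m with
    | zero => exact fun _ => rfl
    | succ m ih =>
      intro h
      change cond (f m) (allN m f) false = true
      rw [h m (Nat.lt_succ_self m)]
      exact ih fun k hk => h k (Nat.lt_succ_of_lt hk)
  unfold innF
  rw [band_iff, ble_iff]
  refine ⟨pc_lt hy1, key _ _ fun k hk => ?_⟩
  rw [band_iff, ble_iff, ble_iff]
  have h1 := digit_pc hy1 ⟨k, hk⟩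
  have h2 := abs_le.1 (hy ⟨k, hk⟩)
  change 1 ≤ pc r y / Bs r ^ k % Bs r ∧ 2 + pc r y / Bs r ^ k % Bs r ≤ Bs r
  have h3 : ((Bs r : ℕ) : ℤ) = 2 * r + 3 := by unfold Bs; push_cast; ring
  change ((pc r y / Bs r ^ k % Bs r : ℕ) : ℤ) = y ⟨k, hk⟩ + (r + 1) at h1
  constructor
  · have : (1 : ℤ) ≤ ((pc r y / Bs r ^ k % Bs r : ℕ) : ℤ) := by rw [h1]; linarith [h2.1]
    exact_mod_cast this
  · have : (2 : ℤ) + ((pc r y / Bs r ^ k % Bs r : ℕ) : ℤ) ≤ ((Bs r : ℕ) : ℤ) := by
      rw [h1, h3]; linarith [h2.2]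
    exact_mod_cast this

lemma inC_spec {X p : ℕ} (h : inC (Bs r) (Pn n r) (Bs r ^ n) (ofs n r) (n + 1) l X = true)
    (hp : p < Pn n r) : inC1 (Bs r) (Pn n r) (ofs n r) (n + 1) l X p = true := by
  unfold inC at h
  rw [band_iff] at h
  have hpos : 0 < Bs r ^ n := by unfold Bs; positivity
  have h1 : p / Bs r ^ n < Bs r := by
    rw [Nat.div_lt_iff_lt_mul hpos]
    rw [Nat.mul_comm, ← pow_succ]
    exact hp
  have h2 := allN_spec (allN_spec h.2 h1) (Nat.mod_lt p hpos)
  have h3 : Nat.add (Nat.mul (Bs r ^ n) (p / Bs r ^ n)) (p % Bs r ^ n) = p :=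
    Nat.div_add_mod p (Bs r ^ n)
  rwa [h3] at h2

lemma inC_ok {X : ℕ} (h : inC (Bs r) (Pn n r) (Bs r ^ n) (ofs n r) (n + 1) l X = true)
    (hl : 1 ≤ l) (N : ℕ) (hN : X.testBit N = true) : ∃ (y : Site (n + 1)) (k : ℕ), InB r y ∧
      y ≠ 0 ∧ k < l ∧ N = pc r y + Pn n r * k := by
  have hP := Pn_pos n r
  have hlt : N < Pn n r * l := by
    by_contra hcon
    rw [not_lt] at hcon
    have h1 : X < 2 ^ N := by
      unfold inC at h
      rw [band_iff, ble_iff] at h
      exact lt_of_lt_of_le h.1 (Nat.pow_le_pow_right (by norm_num) hcon)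
    rw [Nat.testBit_lt_two_pow h1] at hN
    exact absurd hN (by simp)
  have hp : N % Pn n r < Pn n r := Nat.mod_lt _ hP
  have hk : N / Pn n r < l := by
    rw [Nat.div_lt_iff_lt_mul hP, Nat.mul_comm]
    exact hlt
  have h1 := inC_spec h hp
  unfold inC1 at h1
  cases hb : and (innF (Bs r) (Pn n r) (n + 1) (N % Pn n r))
      (not (Nat.beq (N % Pn n r) (ofs n r))) with
  | true =>
    rw [band_iff, bnot_iff] at hb
    obtain ⟨y, hy1, hy2⟩ := innF_spec hb.1
    refine ⟨y, N / Pn n r, hy1, ?_, hk, ?_⟩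
    · rintro rfl
      rw [← hy2, pc_zero] at hb
      have : Nat.beq (ofs n r) (ofs n r) = true := beq_iff.2 rfl
      rw [this] at hb
      exact absurd hb.2 (by simp)
    · rw [hy2]
      exact (Nat.mod_add_div N (Pn n r)).symm
  | false =>
    rw [hb] at h1
    change Nat.beq (Nat.land X (Nat.shiftLeft (patF (Pn n r) (Nat.pred l)) (N % Pn n r))) 0 =
      true at h1
    rw [beq_iff] at h1
    have h2 : (X &&& (patF (Pn n r) (Nat.pred l) <<< (N % Pn n r))).testBit N = false := by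
      have : X &&& (patF (Pn n r) (Nat.pred l) <<< (N % Pn n r)) = 0 := h1
      rw [this]
      exact Nat.zero_testBit N
    rw [Nat.testBit_and, hN, Bool.true_and, Nat.testBit_shiftLeft] at h2
    have h3 : (patF (Pn n r) (Nat.pred l)).testBit (N - N % Pn n r) = true := by
      rw [testBit_patF]
      refine ⟨N / Pn n r, ?_, ?_⟩
      · rw [Nat.pred_eq_sub_one]; omega
      · have := Nat.mod_add_div N (Pn n r)
        omega
    rw [h3, Bool.and_true, decide_eq_false_iff_not] at h2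
    exact absurd (Nat.mod_le N (Pn n r)) h2

lemma inC_bit {X : ℕ} (h : inC (Bs r) (Pn n r) (Bs r ^ n) (ofs n r) (n + 1) l X = true)
    {y : Site (n + 1)} (hy : InB r y) : pc r y = ofs n r ∨ bt X (pc r y) = true := by
  have h1 := inC_spec h (pc_lt (hy.mono (Nat.le_succ r)))
  unfold inC1 at h1
  rw [innF_pc hy] at h1
  cases hb : Nat.beq (pc r y) (ofs n r) with
  | true => exact Or.inl (beq_iff.1 hb)
  | false =>
    rw [hb] at h1
    exact Or.inr h1

/-! ### the mask of the bits which create the centre anew -/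

/-- the mask -/
def kM (B P O l m : ℕ) : ℕ := Nat.rec 0 (fun s acc =>
  Nat.lor (Nat.shiftLeft (patF P (Nat.sub l 3)) (Nat.add (dpF B O s) (Nat.mul 2 P))) acc) m

lemma testBit_kM {B P O l m N : ℕ} (h : (kM B P O l m).testBit N = true) :
    ∃ s < m, ∃ k, N = dpF B O s + P * (k + 2) := by
  induction m with
  | zero =>
    change (0 : ℕ).testBit N = true at h
    exact absurd h (by simp)
  | succ m ih =>
    change (Nat.lor (Nat.shiftLeft (patF P (Nat.sub l 3)) (Nat.add (dpF B O m) (Nat.mul 2 P)))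
      (kM B P O l m)).testBit N = true at h
    rw [testBit_lor] at h
    rcases h with h | h
    · change ((patF P (l - 3)) <<< (dpF B O m + 2 * P)).testBit N = true at h
      rw [Nat.testBit_shiftLeft, Bool.and_eq_true, decide_eq_true_eq, testBit_patF] at h
      obtain ⟨h1, k, -, h2⟩ := h
      refine ⟨m, Nat.lt_succ_self m, k, ?_⟩
      rw [Nat.mul_add, Nat.mul_comm P 2]
      omega
    · obtain ⟨s, h1, h2⟩ := ih h
      exact ⟨s, Nat.lt_succ_of_lt h1, h2⟩

lemma kM_ok {y : Site (n + 1)} {k : ℕ} (hy : InB r y)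
    (h : (kM (Bs r) (Pn n r) (ofs n r) l (2 * (n + 1))).testBit (pc r y + Pn n r * k) = true) :
    y ∈ nbrs (0 : Site (n + 1)) ∧ 2 ≤ k := by
  obtain ⟨s, hs, k', h1⟩ := testBit_kM h
  have h2 : ∃ f ∈ nbrs (0 : Site (n + 1)), dpF (Bs r) (ofs n r) s = pc r f := by
    rcases Nat.even_or_odd' s with ⟨j, h3 | h3⟩
    · subst h3
      exact ⟨_, mem_nbrs_zero.2 ⟨_, Or.inl rfl⟩, (dpF_spec (n := n) (r := r) ⟨j, by omega⟩).1⟩
    · subst h3
      exact ⟨_, mem_nbrs_zero.2 ⟨_, Or.inr rfl⟩, (dpF_spec (n := n) (r := r) ⟨j, by omega⟩).2⟩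
  obtain ⟨f, hf, h3⟩ := h2
  rw [h3] at h1
  obtain ⟨h4, h5⟩ := pc_inj (hy.mono (Nat.le_succ r)) ((nbr_inB hf).mono (by omega)) h1
  rw [h4]
  exact ⟨hf, by omega⟩

/-! ### tables of symmetries -/

/-- the leaf `v` is the map `σ` at the positions of the mask `X` and at `O` -/
def rL (B M X O v : ℕ) (σ : ℕ → ℕ) : Bool :=
  and (Nat.beq (t16 v O) (σ O)) (allN B (fun a => allN M (fun b =>
    or (not (bt X (Nat.add (Nat.mul M a) b)))
      (Nat.beq (t16 v (Nat.add (Nat.mul M a) b)) (σ (Nat.add (Nat.mul M a) b))))))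

/-- the leaves of the tree are the products of the generators after `σ` -/
noncomputable def rS (B M X O : ℕ) (gens : List Gen) : (ℕ → ℕ) → Tr → Bool :=
  List.rec (motive := fun _ => (ℕ → ℕ) → Tr → Bool)
    (fun σ t => Tr.rec (fun v => rL B M X O v σ) (fun _ _ _ _ => false) t)
    (fun g _ ih σ t => Tr.rec (fun _ => false)
      (fun a b _ _ => and (ih σ a) (ih (fun p => g.act B (σ p)) b)) t) gens

lemma rS_spec {X : ℕ} (hX : inC (Bs r) (Pn n r) (Bs r ^ n) (ofs n r) (n + 1) l X = true)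
    {gens : List Gen} {σ : ℕ → ℕ} {t : Tr}
    (h : rS (Bs r) (Bs r ^ n) X (ofs n r) gens σ t = true) (hh : ℕ) {y : Site (n + 1)}
    (hy : InB r y) : t16 (gt t hh) (pc r y) = sigF (Bs r) gens hh (σ (pc r y)) := by
  induction gens generalizing σ t hh with
  | nil =>
    cases t with
    | N a b => exact absurd (show false = true from h) (by simp)
    | L v =>
      change rL (Bs r) (Bs r ^ n) X (ofs n r) v σ = true at h
      change t16 v (pc r y) = σ (pc r y)
      unfold rL at h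
      rw [band_iff, beq_iff] at h
      obtain ⟨h1, h2⟩ := h
      rcases inC_bit hX hy with h3 | h3
      · rw [h3]; exact h1
      · have hpos : 0 < Bs r ^ n := by unfold Bs; positivity
        have hp := pc_lt (hy.mono (Nat.le_succ r))
        have h4 : pc r y / Bs r ^ n < Bs r := by
          rw [Nat.div_lt_iff_lt_mul hpos, Nat.mul_comm, ← pow_succ]
          exact hp
        have h5 := allN_spec (allN_spec h2 h4) (Nat.mod_lt (pc r y) hpos)
        have h6 : Nat.add (Nat.mul (Bs r ^ n) (pc r y / Bs r ^ n)) (pc r y % Bs r ^ n) =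
            pc r y := Nat.div_add_mod _ _
        rw [h6, bor_iff, bnot_iff, beq_iff, h3] at h5
        rcases h5 with h5 | h5
        · exact absurd h5 (by simp)
        · exact h5
  | cons g gens ih =>
    cases t with
    | L v => exact absurd (show false = true from h) (by simp)
    | N a b =>
      change and (rS (Bs r) (Bs r ^ n) X (ofs n r) gens σ a)
        (rS (Bs r) (Bs r ^ n) X (ofs n r) gens (fun p => g.act (Bs r) (σ p)) b) = true at h
      rw [band_iff] at h
      change t16 (Nat.rec (gt a (Nat.div hh 2)) (fun _ _ => gt b (Nat.div hh 2)) (Nat.mod hh 2))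
        (pc r y) = sigF (Bs r) gens (Nat.div hh 2) (cond (Nat.beq (Nat.mod hh 2) 0) (σ (pc r y))
          (g.act (Bs r) (σ (pc r y))))
      have h2 : Nat.mod hh 2 = 0 ∨ Nat.mod hh 2 = 1 := by
        have : Nat.mod hh 2 < 2 := Nat.mod_lt _ (by norm_num)
        omega
      rcases h2 with h2 | h2
      · rw [h2]
        exact ih h.1 _
      · rw [h2]
        exact ih h.2 _

/-- the conditions on the constants, from boolean checks -/
theorem pok {C : PC} {gens : List Gen} (hr : 1 ≤ r) (hl : 2 ≤ l) (hl8 : l ≤ 8)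
    (hP : C.P = Pn n r) (hO : C.O = ofs n r) (hno : C.no = 2 * (n + 1) + 1)
    (hF : C.F = Pn n r * l) (hF2 : C.F2 = 2 ^ (Pn n r * l)) (hM : C.M = Bs r ^ n)
    (hrp : allN l (fun k => Nat.beq (C.rp k) (Nat.mod (rpF (Bs r) (Pn n r) (Bs r ^ n) (n + 1) k)
      C.F2)) = true)
    (hIn : inC (Bs r) (Pn n r) (Bs r ^ n) (ofs n r) (n + 1) l C.mIn = true)
    (hKill : C.mKill = kM (Bs r) (Pn n r) (ofs n r) l (2 * (n + 1)))
    (hdt0 : C.dt 0 = ofs n r)
    (hdt : allN (2 * (n + 1)) (fun s => Nat.beq (C.dt (Nat.succ s)) (dpF (Bs r) (ofs n r) s)) =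
      true)
    (hsg : ∀ (h : ℕ) (y : Site (n + 1)), InB r y →
      C.sg h (pc r y) = sigF (Bs r) gens h (pc r y))
    (hg : ∀ g ∈ gens, g.Ok n) (hqb : 0 < C.qb) (hqa : C.qb ≤ C.qa) (hld : 0 < C.ld)
    (hbig : (C.la + C.ld * 256) * (C.qa * C.qb) * 1099511627776 ≤ C.big) : POk n r l C where
  r_pos := hr
  l_ge := hl
  l_le := hl8
  P_eq := hP
  O_eq := hO
  no_eq := hno
  F_eq := hF
  F2_eq := hF2
  M_le y hy := by rw [hM]; exact M_le hy
  rp_ok k hk := by
    have h1 := allN_spec hrp hk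
    rw [beq_iff] at h1
    rw [h1, hM]
    intro N hN
    have h2 : (rpF (Bs r) (Pn n r) (Bs r ^ n) (n + 1) k % C.F2).testBit N = true := hN
    rw [hF2, Nat.testBit_mod_two_pow, Bool.and_eq_true] at h2
    exact starBits_rpF n r k N h2.2
  mIn_ok := inC_ok hIn (by omega)
  mKill_ok y k hy _ h := by
    rw [hKill] at h
    exact kM_ok hy h
  dt_zero := hdt0
  dt_ok i := by
    have h1 := allN_spec hdt (show 2 * (i : ℕ) < 2 * (n + 1) by omega)
    have h2 := allN_spec hdt (show 2 * (i : ℕ) + 1 < 2 * (n + 1) by omega)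
    rw [beq_iff] at h1 h2
    exact ⟨h1.trans (dpF_spec i).1, h2.trans (dpF_spec i).2⟩
  sg_ok h := by
    obtain ⟨s, hs⟩ := sigF_spec (n := n) (r := r) gens hg h
    exact ⟨s, fun y hy => ⟨(hs y hy).1, (hsg h y hy).trans (hs y hy).2⟩⟩
  qb_pos := hqb
  qa_ge := hqa
  ld_pos := hld
  big_ok := hbig

/-- the symmetries of a table -/
noncomputable def sgT (t : Tr) (h p : ℕ) : ℕ := t16 (gt t h) p

end Pool.Agent.Lib.MP_67d80e_pr_opt
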