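import Pool.Agent.Lib.MP_67d80e_pr_opt.Abs

/-!
Option label certificates up to the symmetries of the lattice which fix the direction of the tilt.
-/

set_option autoImplicit false

open scoped BigOperators ENNReal
open Filter MeasureTheory
open Pool.Agent.Lib.MP_67d80e_pr Pool.Agent.Lib.MP_67d80e_pr_all Pool.Agent.Lib.MP_67d80e_pr_lab

namespace Pool.Agent.Lib.MP_67d80e_pr_opt

variable {n : ℕ}

/-- a symmetry acting on the options -/
def mp (g : GG n) (t : Op n) : Op n := t.map g.f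

lemma mp_comp (g h : GG n) (t : Op n) : mp (g.comp h) t = mp g (mp h t) := by
  cases t <;> rfl

lemma mp_inv (g : GG n) (t : Op n) : mp g (mp g.inv t) = t := by
  cases t with
  | none => rfl
  | some f =>
    change some (g.f (g.f.symm f)) = some f
    rw [AddEquiv.apply_symm_apply]

lemma mp_inv' (g : GG n) (t : Op n) : mp g.inv (mp g t) = t := by
  cases t with
  | none => rfl
  | some f =>
    change some (g.f.symm (g.f f)) = some f
    rw [AddEquiv.symm_apply_apply]

lemma mp_mem (g : GG n) {t : Op n} (ht : t ∈ ops n) : mp g t ∈ ops n := by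
  cases t with
  | none => exact none_mem_ops
  | some f =>
    change some (g.f f) ∈ ops n
    rw [some_mem_ops] at ht ⊢
    exact (g.nbr f).2 ht

lemma wo_mp (q : ℝ) (g : GG n) (t : Op n) : wo q (mp g t) = wo q t := by
  cases t with
  | none => rfl
  | some f =>
    change q ^ ((g.f f) 0) = q ^ (f 0)
    rw [g.zero]

lemma mp_eq_none {g : GG n} {t : Op n} : mp g t = none ↔ t = none := Option.map_eq_none_iff

lemma flg_tw (g : GG n) (z : Site (n + 1)) (a : Dr (n + 1)) (t : Op n) (x : Site (n + 1)) :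
    flg t (tw g z a) x ↔ flg (mp g t) a (z + g.f x) := by
  cases t with
  | none => exact Iff.rfl
  | some f =>
    change a (z + g.f x) ≤ a (z + g.f (x + f)) ↔ a (z + g.f x) ≤ a (z + g.f x + g.f f)
    rw [map_add, add_assoc]

/-- certificates up to symmetry -/
structure OBCert (n : ℕ) (B : Type) where
  /-- lower bounds -/
  K : B → Set (Site (n + 1) × ℤ)
  /-- weight -/
  φ : B → ℕ
  /-- option -/
  ty : B → Op n
  /-- targets after the ring of the centre -/
  mT : B → Op n → Option (B × GG n)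
  /-- followed sites -/
  E : B → Finset (Site (n + 1))
  /-- targets of rings at followed sites -/
  tgt : B → Site (n + 1) → Option (B × GG n)

/-- the weight of an optional label -/
def OBCert.φo {B : Type} (c : OBCert n B) : Option (B × GG n) → ℝ
  | none => 0
  | some j => c.φ j.1

/-- the conditions, up to symmetry -/
structure OBCert.Ok {B : Type} (c : OBCert n B) (q lam : ℝ) (R : ℕ) : Prop where
  one_le : 1 ≤ q
  lam_nonneg : 0 ≤ lam
  root : ∀ t ∈ ops n, ∃ (i : B) (g : GG n), mp g (c.ty i) = t ∧ c.K i = ∅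
  pos : ∀ i, c.ty i = none → 1 ≤ c.φ i
  own_ok : ∀ i, c.ty i = none → ∀ t ∈ ops n, ∀ j, c.mT i t = some j → mp j.2 (c.ty j.1) = t ∧
    ∀ a : Dr (n + 1), a 0 ≠ ⊥ → V0 a (c.K i) → V0 (tw j.2 0 (upd {0} a)) (c.K j.1)
  own_flg : ∀ i, c.ty i = none → ∀ t ∈ ops n, c.mT i t = none →
    ∀ a : Dr (n + 1), a 0 ≠ ⊥ → V0 a (c.K i) → flg t (upd {0} a) 0
  child_ok : ∀ i, ∀ f ∈ nbrs (0 : Site (n + 1)), c.ty i = some f → ∀ t ∈ ops n, ∀ j,
    c.mT i t = some j → mp j.2 (c.ty j.1) = t ∧ ∀ a : Dr (n + 1), a 0 ≠ ⊥ → V0 a (c.K i) →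
      a f < a 0 → V0 (tw j.2 f (upd {0} a)) (c.K j.1)
  child_flg : ∀ i, ∀ f ∈ nbrs (0 : Site (n + 1)), c.ty i = some f → ∀ t ∈ ops n,
    c.mT i t = none → ∀ a : Dr (n + 1), a 0 ≠ ⊥ → V0 a (c.K i) → a f < a 0 →
      flg t (upd {0} a) f
  E_ne : ∀ i, (0 : Site (n + 1)) ∉ c.E i
  E_le : ∀ i, ∀ y ∈ c.E i, ∀ k, |y k| ≤ R
  tgt_ok : ∀ i, ∀ y ∈ c.E i, ∀ j, c.tgt i y = some j → mp j.2 (c.ty j.1) = c.ty i ∧
    ∀ a : Dr (n + 1), a 0 ≠ ⊥ → V0 a (c.K i) → (y ∈ nbrs (0 : Site (n + 1)) → a y ≤ a 0) →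
      V0 (tw j.2 0 (upd {y} a)) (c.K j.1)
  kill_ok : ∀ i, ∀ y ∈ c.E i, c.tgt i y = none → ∀ a : Dr (n + 1), a 0 ≠ ⊥ → V0 a (c.K i) →
    (y ∈ nbrs (0 : Site (n + 1)) → a y ≤ a 0) → flg (c.ty i) (upd {y} a) 0
  ineq : ∀ i, c.ty i ∈ ops n → wo q (c.ty i) * ∑ t ∈ ops n, c.φo (c.mT i t) +
    ∑ y ∈ c.E i, c.φo (c.tgt i y) ≤ (lam + 1 + (c.E i).card) * c.φ i

open Classical in
/-- the full certificate -/
noncomputable def OBCert.full {B : Type} (c : OBCert n B) : OCert n (B × GG n) where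
  K i := im i.2 (c.K i.1)
  φ i := c.φ i.1
  ty i := mp i.2 (c.ty i.1)
  mT i t := (c.mT i.1 (mp i.2.inv t)).map fun j => (j.1, i.2.comp j.2)
  E i := (c.E i.1).image i.2.f
  tgt i y := (c.tgt i.1 (i.2.f.symm y)).map fun j => (j.1, i.2.comp j.2)

lemma full_φo {B : Type} (c : OBCert n B) (g : GG n) (o : Option (B × GG n)) :
    c.full.φo (o.map fun j => (j.1, g.comp j.2)) = c.φo o := by
  cases o with
  | none => rfl
  | some j => rfl

lemma sum_mp (g : GG n) (F : Op n → ℝ) : ∑ t ∈ ops n, F (mp g.inv t) = ∑ t ∈ ops n, F t := by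
  refine Finset.sum_nbij' (fun t => mp g.inv t) (fun t => mp g t) (fun t ht => mp_mem _ ht)
    (fun t ht => mp_mem _ ht) (fun t _ => mp_inv g t) (fun t _ => mp_inv' g t) (fun t _ => rfl)

theorem OBCert.Ok.full {B : Type} {c : OBCert n B} {q lam : ℝ} {R : ℕ} (hR : 1 ≤ R)
    (h : c.Ok q lam R) : c.full.Ok q lam ((n + 1) * R) where
  one_le := h.one_le
  lam_nonneg := h.lam_nonneg
  R_pos := Nat.mul_pos (Nat.succ_pos n) hR
  root t ht := by
    obtain ⟨i, g, h1, h2⟩ := h.root t ht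
    refine ⟨(i, g), h1, ?_⟩
    change im _ (c.K i) = ∅
    rw [h2]
    rfl
  pos i hi := h.pos _ (mp_eq_none.1 hi)
  own_ok i hi t ht j hj := by
    have hi' : c.ty i.1 = none := mp_eq_none.1 hi
    change (c.mT i.1 (mp i.2.inv t)).map _ = some j at hj
    rw [Option.map_eq_some_iff] at hj
    obtain ⟨j', hj', rfl⟩ := hj
    obtain ⟨h1, h2⟩ := h.own_ok i.1 hi' _ (mp_mem _ ht) j' hj'
    refine ⟨?_, fun a z hne hv => ?_⟩
    · change mp (i.2.comp j'.2) (c.ty j'.1) = t
      rw [mp_comp, h1, mp_inv]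
    · change Val _ _ (im _ _) at hv
      rw [val_im] at hv
      change Val _ _ (im _ _)
      rw [val_im]
      change V0 (tw (i.2.comp j'.2) z (upd {z} a)) _
      have h3 := tw_comp i.2 j'.2 z 0 (upd {z} a)
      rw [map_zero, add_zero] at h3
      have h4 := tw_upd i.2 z 0 a
      rw [map_zero, add_zero] at h4
      rw [h3, h4]
      exact h2 (tw i.2 z a) (by rw [tw_zero]; exact hne) hv
  own_flg i hi t ht hj a z hne hv := by
    have hi' : c.ty i.1 = none := mp_eq_none.1 hi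
    change (c.mT i.1 (mp i.2.inv t)).map _ = none at hj
    rw [Option.map_eq_none_iff] at hj
    change Val _ _ (im _ _) at hv
    rw [val_im] at hv
    have h1 := h.own_flg i.1 hi' _ (mp_mem _ ht) hj (tw i.2 z a) (by rw [tw_zero]; exact hne) hv
    have h4 := tw_upd i.2 z 0 a
    rw [map_zero, add_zero] at h4
    rw [← h4, flg_tw, mp_inv, map_zero, add_zero] at h1
    exact h1
  child_ok i f hf hi t ht j hj := by
    have hi' : c.ty i.1 = some (i.2.f.symm f) := by
      have h1 : mp i.2.inv (mp i.2 (c.ty i.1)) = mp i.2.inv (some f) := by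
        change mp i.2 (c.ty i.1) = some f at hi
        rw [hi]
      rw [mp_inv'] at h1
      exact h1
    have hf' : i.2.f.symm f ∈ nbrs (0 : Site (n + 1)) := by
      rw [← i.2.nbr, AddEquiv.apply_symm_apply]; exact hf
    change (c.mT i.1 (mp i.2.inv t)).map _ = some j at hj
    rw [Option.map_eq_some_iff] at hj
    obtain ⟨j', hj', rfl⟩ := hj
    obtain ⟨h1, h2⟩ := h.child_ok i.1 _ hf' hi' _ (mp_mem _ ht) j' hj'
    refine ⟨?_, fun a z hne hv hlt => ?_⟩
    · change mp (i.2.comp j'.2) (c.ty j'.1) = t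
      rw [mp_comp, h1, mp_inv]
    · change Val _ _ (im _ _) at hv
      rw [val_im] at hv
      change Val _ _ (im _ _)
      rw [val_im]
      change V0 (tw (i.2.comp j'.2) (z + f) (upd {z} a)) _
      have h3 := tw_comp i.2 j'.2 z (i.2.f.symm f) (upd {z} a)
      rw [AddEquiv.apply_symm_apply] at h3
      have h4 := tw_upd i.2 z 0 a
      rw [map_zero, add_zero] at h4
      rw [h3, h4]
      refine h2 (tw i.2 z a) (by rw [tw_zero]; exact hne) hv ?_
      rw [tw_zero]
      unfold tw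
      rw [AddEquiv.apply_symm_apply]
      exact hlt
  child_flg i f hf hi t ht hj a z hne hv hlt := by
    have hi' : c.ty i.1 = some (i.2.f.symm f) := by
      have h1 : mp i.2.inv (mp i.2 (c.ty i.1)) = mp i.2.inv (some f) := by
        change mp i.2 (c.ty i.1) = some f at hi
        rw [hi]
      rw [mp_inv'] at h1
      exact h1
    have hf' : i.2.f.symm f ∈ nbrs (0 : Site (n + 1)) := by
      rw [← i.2.nbr, AddEquiv.apply_symm_apply]; exact hf
    change (c.mT i.1 (mp i.2.inv t)).map _ = none at hj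
    rw [Option.map_eq_none_iff] at hj
    change Val _ _ (im _ _) at hv
    rw [val_im] at hv
    have h1 := h.child_flg i.1 _ hf' hi' _ (mp_mem _ ht) hj (tw i.2 z a)
      (by rw [tw_zero]; exact hne) hv (by
        rw [tw_zero]
        unfold tw
        rw [AddEquiv.apply_symm_apply]
        exact hlt)
    have h4 := tw_upd i.2 z 0 a
    rw [map_zero, add_zero] at h4
    rw [← h4, flg_tw, mp_inv, AddEquiv.apply_symm_apply] at h1
    exact h1
  E_ne i := by
    classical
    intro h0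
    obtain ⟨y, hy, h1⟩ := Finset.mem_image.1 h0
    rw [map_eq_zero_iff i.2.f i.2.f.injective] at h1
    subst h1
    exact h.E_ne i.1 hy
  E_le i := by
    classical
    intro y hy
    obtain ⟨y', hy', rfl⟩ := Finset.mem_image.1 hy
    exact i.2.abs_le (h.E_le i.1 y' hy')
  tgt_ok i y hy j ht := by
    classical
    obtain ⟨y', hy', rfl⟩ := Finset.mem_image.1 hy
    change (c.tgt i.1 (i.2.f.symm (i.2.f y'))).map _ = some j at ht
    rw [AddEquiv.symm_apply_apply, Option.map_eq_some_iff] at ht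
    obtain ⟨j', hj', rfl⟩ := ht
    obtain ⟨h1, h2⟩ := h.tgt_ok i.1 y' hy' j' hj'
    refine ⟨?_, fun a z hne hv hle => ?_⟩
    · change mp (i.2.comp j'.2) (c.ty j'.1) = mp i.2 (c.ty i.1)
      rw [mp_comp, h1]
    · change Val _ _ (im _ _) at hv
      rw [val_im] at hv
      change Val _ _ (im _ _)
      rw [val_im]
      change V0 (tw (i.2.comp j'.2) z (upd {z + i.2.f y'} a)) _
      have h3 := tw_comp i.2 j'.2 z 0 (upd {z + i.2.f y'} a)
      rw [map_zero, add_zero, tw_upd] at h3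
      rw [h3]
      refine h2 (tw i.2 z a) (by rw [tw_zero]; exact hne) hv fun h4 => ?_
      rw [tw_zero]
      exact hle (by rw [add_mem_nbrs_iff, i.2.nbr]; exact h4)
  kill_ok i y hy ht a z hne hv hle := by
    classical
    obtain ⟨y', hy', rfl⟩ := Finset.mem_image.1 hy
    change Val _ _ (im _ _) at hv
    rw [val_im] at hv
    change (c.tgt i.1 (i.2.f.symm (i.2.f y'))).map _ = none at ht
    rw [AddEquiv.symm_apply_apply, Option.map_eq_none_iff] at ht
    have h1 := h.kill_ok i.1 y' hy' ht (tw i.2 z a) (by rw [tw_zero]; exact hne) hv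
      (fun h4 => by
        rw [tw_zero]
        exact hle (by rw [add_mem_nbrs_iff, i.2.nbr]; exact h4))
    rw [← tw_upd, flg_tw, map_zero, add_zero] at h1
    exact h1
  ineq i hi := by
    classical
    change mp i.2 (c.ty i.1) ∈ ops n at hi
    have h0 : c.ty i.1 ∈ ops n := by
      have := mp_mem i.2.inv hi
      rwa [mp_inv'] at this
    have h1 := h.ineq i.1 h0
    have h2 : ∑ t ∈ ops n, c.full.φo (c.full.mT i t) = ∑ t ∈ ops n, c.φo (c.mT i.1 t) := by
      rw [← sum_mp i.2 (fun t => c.φo (c.mT i.1 t))]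
      refine Finset.sum_congr rfl fun t _ => ?_
      exact full_φo c i.2 _
    have h3 : ∑ y ∈ c.full.E i, c.full.φo (c.full.tgt i y) =
        ∑ y ∈ c.E i.1, c.φo (c.tgt i.1 y) := by
      change ∑ y ∈ (c.E i.1).image i.2.f, _ = _
      rw [Finset.sum_image (fun x _ y _ hxy => i.2.f.injective hxy)]
      refine Finset.sum_congr rfl fun y _ => ?_
      change c.full.φo ((c.tgt i.1 (i.2.f.symm (i.2.f y))).map _) = _
      rw [AddEquiv.symm_apply_apply]
      exact full_φo c i.2 _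
    have h4 : (c.full.E i).card = (c.E i.1).card :=
      Finset.card_image_of_injective _ i.2.f.injective
    have h5 : wo q (c.full.ty i) = wo q (c.ty i.1) := wo_mp q i.2 _
    rw [h2, h3, h4, h5]
    exact h1

/-- certificates up to symmetry give the functional -/
theorem OBCert.Ok.hasPsi {B : Type} [Nonempty B] {c : OBCert n B} {q lam : ℝ} {R : ℕ}
    (hR : 1 ≤ R) (h : c.Ok q lam R) : ∃ Ψ, HasPsi n q lam Ψ := by
  have : Nonempty (B × GG n) := ⟨(Classical.arbitrary B, GG.one)⟩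
  exact ⟨_, Pool.Agent.Lib.MP_67d80e_pr_opt.hasPsi (h.full hR)⟩

end Pool.Agent.Lib.MP_67d80e_pr_opt
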